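import Mathlib

/-!
# The points of a diagonal cubic in the projective space over a finite field
-/

set_option autoImplicit false

open scoped LinearAlgebra.Projectivization

namespace Pool.Agent.V5helper41.BA

/-- the points of the diagonal cubic in the projective space -/
def PC {m : ℕ} (a : Fin m → ℤ) (L : Type) [Field L] : Set (ℙ L (Fin m → L)) :=
  {P | ∑ i, (a i : L) * P.rep i ^ 3 = 0}

lemma cub_smul {m : ℕ} (a : Fin m → ℤ) {L : Type} [Field L] (u : L) (x : Fin m → L) :
    ∑ i, (a i : L) * (u • x) i ^ 3 = u ^ 3 * ∑ i, (a i : L) * x i ^ 3 := by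
  rw [Finset.mul_sum]
  refine Finset.sum_congr rfl fun i _ => ?_
  rw [Pi.smul_apply, smul_eq_mul]
  ring

/-- the nonzero solutions are the multiples of the representatives of the points -/
theorem card_PC {m : ℕ} (a : Fin m → ℤ) (L : Type) [Field L] [Finite L] :
    Nat.card {x : Fin m → L // x ≠ 0 ∧ ∑ i, (a i : L) * x i ^ 3 = 0} =
      (PC a L).ncard * (Nat.card L - 1) := by
  classical
  have : Fintype L := Fintype.ofFinite L
  have hu : Nat.card Lˣ = Nat.card L - 1 := by
    rw [Nat.card_eq_fintype_card, Nat.card_eq_fintype_card, Fintype.card_units]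
  rw [← hu, ← Nat.card_coe_set_eq, ← Nat.card_prod]
  symm
  refine Nat.card_congr (Equiv.ofBijective (fun q : PC a L × Lˣ =>
    (⟨(q.2 : L) • q.1.1.rep, smul_ne_zero q.2.ne_zero q.1.1.rep_nonzero, by
      rw [cub_smul]
      have h := q.1.2
      unfold PC at h
      rw [Set.mem_setOf_eq] at h
      rw [h, mul_zero]⟩ : {x : Fin m → L // x ≠ 0 ∧ ∑ i, (a i : L) * x i ^ 3 = 0})) ⟨?_, ?_⟩)
  · rintro ⟨⟨P, hP⟩, u⟩ ⟨⟨Q, hQ⟩, v⟩ h
    have h1 : (u : L) • P.rep = (v : L) • Q.rep := congrArg Subtype.val h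
    have h2 : P = Q := by
      rw [← P.mk_rep, ← Q.mk_rep, Projectivization.mk_eq_mk_iff]
      refine ⟨u⁻¹ * v, ?_⟩
      rw [mul_smul]
      have h3 : v • Q.rep = u • P.rep := h1.symm
      rw [h3, inv_smul_smul]
    subst h2
    have h3 : u = v := by
      apply Units.ext
      exact smul_left_injective L P.rep_nonzero h1
    subst h3
    rfl
  · rintro ⟨x, hx, hx'⟩
    obtain ⟨u, hu⟩ := Projectivization.exists_smul_eq_mk_rep L x hx
    have h1 : (Projectivization.mk L x hx).rep = (u : L) • x := hu.symm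
    refine ⟨⟨⟨Projectivization.mk L x hx, ?_⟩, u⁻¹⟩, ?_⟩
    · unfold PC
      rw [Set.mem_setOf_eq, h1, cub_smul, hx', mul_zero]
    · apply Subtype.ext
      show ((u⁻¹ : Lˣ) : L) • (Projectivization.mk L x hx).rep = x
      rw [h1]
      exact inv_smul_smul u x

end Pool.Agent.V5helper41.BA
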