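import Mathlib
import Pool.Agent.N883.C.Cnt

/-!
# The number of zeros of the diagonal cubic forms in `2` and `4` variables over finite fields
-/

set_option autoImplicit false
set_option linter.unusedSectionVars false

namespace Pool.Agent.V5helper41.BA

open Finset
open Pool.Agent.N883.C

/-- the numbers whose cubic characters occur -/
def Dt {m : ℕ} {k : Type} [CommRing k] (a : Fin m → k) (T : Finset (Fin m)) : k :=
  (∏ i, a i) * ∏ i ∈ T, a i

section
variable {k : Type} [Field k] [Fintype k] {χ : MulChar k ℂ}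

open scoped Classical in
lemma sum_pow (h : χ ^ 3 = 1) (h1 : χ ≠ 1) (j : ℕ) :
    ∑ t ∈ (univ : Finset k).erase 0, χ t ^ j = if 3 ∣ j then (Fintype.card k - 1 : ℂ) else 0 := by
  have key : ∀ t ∈ (univ : Finset k).erase 0, χ t ^ j = χ t ^ (j % 3) := by
    intro t ht
    conv_lhs => rw [← Nat.div_add_mod j 3, pow_add, pow_mul, chi3 h (ne_of_mem_erase ht), one_pow,
      one_mul]
  rw [Finset.sum_congr rfl key]
  have h2 : j % 3 < 3 := Nat.mod_lt _ (by norm_num)
  by_cases h3 : 3 ∣ j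
  · rw [if_pos h3, Nat.mod_eq_zero_of_dvd h3]
    have := sum_three h h1 1 0 0
    simpa using this
  · rw [if_neg h3]
    have h4 : j % 3 = 1 ∨ j % 3 = 2 := by omega
    rcases h4 with h4 | h4
    · rw [h4]
      have := sum_three h h1 0 1 0
      simpa using this
    · rw [h4]
      have := sum_three h h1 0 0 1
      simpa using this

lemma filt {c : ℕ} (hc : c = 1 ∨ c = 2) (T : Finset (Fin (2 * c))) :
    3 ∣ (2 * c) + T.card ↔ T.card = c := by
  have h1 : T.card ≤ 2 * c := by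
    have := T.card_le_univ
    simpa using this
  omega

/-- the character sum -/
lemma big_sum {c : ℕ} (hc : c = 1 ∨ c = 2) (h : χ ^ 3 = 1) (h1 : χ ≠ 1) (a : Fin (2 * c) → k)
    (g g' : ℂ) : (letI := Classical.decEq k; ∑ t ∈ (univ : Finset k).erase 0,
      ∏ i, (χ (t * a i) ^ 2 * g + χ (t * a i) * g')) =
      (Fintype.card k - 1) * ∑ T ∈ (univ : Finset (Fin (2 * c))).powersetCard c,
          χ (Dt a T) * (g * g') ^ c := by
  classical
  have e1 : ∀ t : k, ∏ i, (χ (t * a i) ^ 2 * g + χ (t * a i) * g') =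
      ∑ T : Finset (Fin (2 * c)), (χ (Dt a T) * g ^ T.card * g' ^ (2 * c - T.card)) *
        χ t ^ (2 * c + T.card) := by
    intro t
    have e2 : ∀ i, χ (t * a i) ^ 2 * g + χ (t * a i) * g' =
        (χ t * χ (a i)) * (χ t * χ (a i) * g + g') := by
      intro i
      rw [map_mul]
      ring
    rw [Finset.prod_congr rfl fun i _ => e2 i, Finset.prod_mul_distrib, Finset.prod_add,
      Finset.powerset_univ, Finset.mul_sum]
    refine Finset.sum_congr rfl fun T _ => ?_
    have e3 : (univ \ T).card = 2 * c - T.card := by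
      rw [Finset.card_sdiff_of_subset (Finset.subset_univ T), Finset.card_univ, Fintype.card_fin]
    rw [Finset.prod_const, e3, Finset.prod_mul_distrib, Finset.prod_mul_distrib,
      Finset.prod_mul_distrib, Finset.prod_const, Finset.prod_const, Finset.prod_const,
      Finset.card_univ, Fintype.card_fin]
    unfold Dt
    rw [map_mul, map_prod, map_prod, pow_add]
    ring
  rw [Finset.sum_congr rfl fun t _ => e1 t, Finset.sum_comm]
  have e4 : ∀ T : Finset (Fin (2 * c)), ∑ t ∈ (univ : Finset k).erase 0,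
      (χ (Dt a T) * g ^ T.card * g' ^ (2 * c - T.card)) * χ t ^ (2 * c + T.card) =
      if T.card = c then
        (Fintype.card k - 1) * (χ (Dt a T) * (g * g') ^ c) else 0 := by
    intro T
    rw [← Finset.mul_sum, sum_pow h h1]
    simp only [filt hc T]
    split_ifs with h2
    · rw [h2, show 2 * c - c = c by omega, mul_pow]
      ring
    · ring
  rw [Finset.sum_congr rfl fun T _ => e4 T, ← Finset.sum_filter, Finset.mul_sum]
  refine Finset.sum_congr ?_ fun _ _ => rfl
  ext T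
  simp [Finset.mem_powersetCard]

/-- **The number of the zeros.** -/
theorem card_even {c : ℕ} (hc : c = 1 ∨ c = 2) (h : χ ^ 3 = 1) (h1 : χ ≠ 1) {ψ : AddChar k ℂ}
    (hψ : ψ ≠ 1) {a : Fin (2 * c) → k} (ha : ∀ i, a i ≠ 0) :
    (Nat.card {x : Fin (2 * c) → k // ∑ i, a i * x i ^ 3 = 0} : ℂ) =
      (Fintype.card k : ℂ) ^ (2 * c - 1) + (Fintype.card k : ℂ) ^ (c - 1) *
        (Fintype.card k - 1) * ∑ T ∈ (univ : Finset (Fin (2 * c))).powersetCard c, χ (Dt a T) := by
  classical
  have h2 := card_diag h h1 hψ a ha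
  have h3 := big_sum hc h h1 a (gaussSum χ ψ) (gaussSum χ⁻¹ ψ)
  have h4 : (∑ t ∈ (univ : Finset k).erase 0, ∏ i, (χ (t * a i) ^ 2 * gaussSum χ ψ +
      χ (t * a i) * gaussSum χ⁻¹ ψ)) = (letI := Classical.decEq k;
      ∑ t ∈ (univ : Finset k).erase 0, ∏ i, (χ (t * a i) ^ 2 * gaussSum χ ψ +
      χ (t * a i) * gaussSum χ⁻¹ ψ)) := by
    congr!
  have hq : (Fintype.card k : ℂ) ≠ 0 := Nat.cast_ne_zero.2 Fintype.card_ne_zero
  have hg := gauss_mul h h1 hψ
  apply mul_left_cancel₀ hq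
  rw [h2]
  rw [← h4, hg, ← Finset.sum_mul] at h3
  have h5 : (∑ t ∈ (univ : Finset k).erase 0, ∏ i, (χ (t * a i) ^ 2 * gaussSum χ ψ +
      χ (t * a i) * gaussSum χ⁻¹ ψ)) = (Fintype.card k : ℂ) *
      ((Fintype.card k : ℂ) ^ (c - 1) * (Fintype.card k - 1) *
        ∑ T ∈ (univ : Finset (Fin (2 * c))).powersetCard c, χ (Dt a T)) := by
    rw [h3]
    obtain ⟨d, hd⟩ : ∃ d, c = d + 1 := ⟨c - 1, by omega⟩
    rw [show c - 1 = d by omega]
    conv_lhs => rw [show (Fintype.card k : ℂ) ^ c = (Fintype.card k : ℂ) ^ (d + 1) by rw [hd]]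
    ring
  have h6 : (Fintype.card k : ℂ) * (Fintype.card k : ℂ) ^ (2 * c - 1) =
      (Fintype.card k : ℂ) ^ (2 * c) := by
    rw [← pow_succ']
    congr 1
    omega
  have h7 : ∀ X : ℂ, X = ∑ t ∈ (univ : Finset k).erase 0, ∏ i, (χ (t * a i) ^ 2 * gaussSum χ ψ +
      χ (t * a i) * gaussSum χ⁻¹ ψ) → (Fintype.card k : ℂ) ^ (2 * c) + X =
      Fintype.card k * ((Fintype.card k : ℂ) ^ (2 * c - 1) + (Fintype.card k : ℂ) ^ (c - 1) *
        (Fintype.card k - 1) * ∑ T ∈ (univ : Finset (Fin (2 * c))).powersetCard c, χ (Dt a T)) := by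
    intro X hX
    rw [hX, h5, mul_add, h6]
  exact h7 _ (by congr!)

end

end Pool.Agent.V5helper41.BA
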