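import Mathlib
import Pool.Agent.N842.EB.Frb
import Pool.Agent.V5helper41.BA.Ev

/-!
# The Galois action on the cohomology of the diagonal cubic surfaces
-/

set_option autoImplicit false
set_option linter.unusedSectionVars false

open NumberField IsDedekindDomain

namespace Pool.Agent.V5helper41.BA

open scoped Classical
open Pool.Agent.N842.EB

variable {F : Type} [Field F] [NumberField F] {S : Finset ℕ} {z : F} {r : ℕ → F}
  (C : Ctx S z r) {m : ℕ} {a : Fin m → ℤ} {α : Fin m → F}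

/-- the cube root of `Dt a T` -/
def uT (α : Fin m → F) (T : Finset (Fin m)) : F := (∏ i, α i) * ∏ i ∈ T, α i

lemma uT_cube (hα : ∀ i, α i ^ 3 = (a i : F)) (T : Finset (Fin m)) :
    uT α T ^ 3 = ((Dt a T : ℤ) : F) := by
  unfold uT Dt
  rw [mul_pow, ← Finset.prod_pow, ← Finset.prod_pow]
  simp only [hα]
  push_cast
  rfl

lemma uT_ne (hα : ∀ i, α i ^ 3 = (a i : F)) (ha : ∀ i, a i ≠ 0) (T : Finset (Fin m)) :
    uT α T ≠ 0 := by
  have h : ∀ i, α i ≠ 0 := by
    intro i h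
    have h1 := hα i
    rw [h, zero_pow (by norm_num)] at h1
    exact ha i (by exact_mod_cast h1.symm)
  exact mul_ne_zero (Finset.prod_ne_zero_iff.2 fun i _ => h i)
    (Finset.prod_ne_zero_iff.2 fun i _ => h i)

lemma uT_compl (hα : ∀ i, α i ^ 3 = (a i : F)) (T : Finset (Fin m)) :
    uT α T * uT α Tᶜ = ((∏ i, a i : ℤ) : F) := by
  have h1 : (∏ i ∈ T, α i) * ∏ i ∈ Tᶜ, α i = ∏ i, α i := Finset.prod_mul_prod_compl T α
  unfold uT
  have h2 : (∏ i, α i) ^ 3 = ((∏ i, a i : ℤ) : F) := by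
    rw [← Finset.prod_pow]
    simp only [hα]
    push_cast
    rfl
  rw [← h2]
  linear_combination (∏ i, α i) ^ 2 * h1

section kap
variable (hα : ∀ i, α i ^ 3 = (a i : F)) (ha : ∀ i, a i ≠ 0)

include C hα in
lemma kap_ex (σ : F ≃ₐ[ℚ] F) (T : Finset (Fin m)) :
    ∃ c : ZMod 3, σ (uT α T) = z ^ c.val * uT α T := by
  apply cubes C.hz
  rw [← map_pow, uT_cube hα, map_intCast]

/-- the exponent of the automorphism `σ` on the cube root -/
noncomputable def kap (σ : F ≃ₐ[ℚ] F) (T : Finset (Fin m)) : ZMod 3 := (kap_ex C hα σ T).choose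

lemma kap_spec (σ : F ≃ₐ[ℚ] F) (T : Finset (Fin m)) :
    σ (uT α T) = z ^ (kap C hα σ T).val * uT α T := (kap_ex C hα σ T).choose_spec

include ha in
lemma kap_uniq {σ : F ≃ₐ[ℚ] F} {T : Finset (Fin m)} {c : ZMod 3}
    (h : σ (uT α T) = z ^ c.val * uT α T) : kap C hα σ T = c := by
  rw [kap_spec C hα] at h
  exact zp_inj C.hz (mul_right_cancel₀ (uT_ne hα ha T) h)

/-- the sign of an automorphism -/
noncomputable def ee (z : F) (σ : F ≃ₐ[ℚ] F) : ZMod 3 := if σ z = z then 1 else -1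

lemma neg_val3 : ∀ c : ZMod 3, 2 * c.val = (-c).val ∨ 2 * c.val = (-c).val + 3 := by decide

include C in
lemma map_zp (σ : F ≃ₐ[ℚ] F) (c : ZMod 3) : σ (z ^ c.val) = z ^ (ee z σ * c).val := by
  unfold ee
  split_ifs with h
  · rw [map_pow, h, one_mul]
  · rw [map_pow, (C.z_or σ).resolve_left h, neg_one_mul, ← pow_mul]
    rcases neg_val3 c with h1 | h1
    · rw [h1]
    · rw [h1, pow_add, z3 C.hz, mul_one]

include ha in
lemma kap_mul (σ τ : F ≃ₐ[ℚ] F) (T : Finset (Fin m)) :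
    kap C hα (σ * τ) T = kap C hα σ T + ee z σ * kap C hα τ T := by
  apply kap_uniq C hα ha
  rw [AlgEquiv.mul_apply, kap_spec C hα τ, map_mul, map_zp C, kap_spec C hα σ, zp_add C.hz]
  ring

include ha in
lemma kap_one (T : Finset (Fin m)) : kap C hα 1 T = 0 := by
  apply kap_uniq C hα ha
  rw [AlgEquiv.one_apply, ZMod.val_zero, pow_zero, one_mul]

include ha in
lemma kap_compl (σ : F ≃ₐ[ℚ] F) (T : Finset (Fin m)) : kap C hα σ Tᶜ = -kap C hα σ T := by
  apply kap_uniq C hα ha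
  have h1 := congrArg σ (uT_compl hα T)
  rw [map_mul, map_intCast, kap_spec C hα σ T, ← uT_compl hα T] at h1
  have h2 : z ^ (kap C hα σ T).val * z ^ (-kap C hα σ T).val = 1 := by
    rw [← zp_add C.hz, add_neg_cancel, ZMod.val_zero, pow_zero]
  apply mul_left_cancel₀ (uT_ne hα ha T)
  have h3 : z ^ (kap C hα σ T).val ≠ 0 := pow_ne_zero _ (z0 C.hz)
  apply mul_left_cancel₀ h3
  linear_combination h1 - uT α T * uT α Tᶜ * h2

end kap

/-! ### The representation -/

/-- the index set -/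
abbrev PP (c : ℕ) : Type := {T : Finset (Fin (2 * c)) // T.card = c}

/-- the action on the index set -/
noncomputable def sg {c : ℕ} (z : F) (σ : F ≃ₐ[ℚ] F) (T : PP c) : PP c :=
  if σ z = z then T else ⟨T.1ᶜ, by
    rw [Finset.card_compl, Fintype.card_fin, T.2]
    omega⟩

lemma sg_sg {c : ℕ} (σ : F ≃ₐ[ℚ] F) (T : PP c) : sg z σ (sg z σ T) = T := by
  unfold sg
  split_ifs with h
  · rfl
  · apply Subtype.ext
    exact compl_compl T.1

include C in
lemma mul_z (σ τ : F ≃ₐ[ℚ] F) : (σ * τ) z = z ↔ (σ z = z ↔ τ z = z) := by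
  have hz2 := C.z_sq_ne
  have hz3 := z3 C.hz
  have hz4 : (z ^ 2) ^ 2 = z := by linear_combination z * hz3
  rw [AlgEquiv.mul_apply]
  rcases C.z_or σ with h1 | h1 <;> rcases C.z_or τ with h2 | h2
  · rw [h2, h1]
    exact ⟨fun _ => Iff.rfl, fun _ => rfl⟩
  · rw [h2, map_pow, h1]
    constructor
    · intro h
      exact absurd h hz2
    · intro h
      exact h.1 rfl
  · rw [h2, h1]
    constructor
    · intro h
      exact absurd h hz2
    · intro h
      exact h.2 rfl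
  · rw [h2, map_pow, h1, hz4]
    exact ⟨fun _ => Iff.rfl, fun _ => rfl⟩

include C in
lemma sg_mul {c : ℕ} (σ τ : F ≃ₐ[ℚ] F) (T : PP c) : sg z (σ * τ) T = sg z σ (sg z τ T) := by
  unfold sg
  by_cases h1 : σ z = z <;> by_cases h2 : τ z = z
  · rw [if_pos ((mul_z C σ τ).2 (by tauto)), if_pos h1, if_pos h2]
  · rw [if_neg (fun h => h2 (((mul_z C σ τ).1 h).1 h1)), if_pos h1, if_neg h2]
  · rw [if_neg (fun h => h1 (((mul_z C σ τ).1 h).2 h2)), if_neg h1, if_pos h2]
  · rw [if_pos ((mul_z C σ τ).2 (by tauto)), if_neg h1, if_neg h2]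
    apply Subtype.ext
    exact (compl_compl T.1).symm

section rep
variable {c : ℕ} {a : Fin (2 * c) → ℤ} {α : Fin (2 * c) → F} (hα : ∀ i, α i ^ 3 = (a i : F))
  (ha : ∀ i, a i ≠ 0) {ζ : ℂ} (hζ : ζ ^ 2 + ζ + 1 = 0)

include ha in
lemma kap_sg (σ τ : F ≃ₐ[ℚ] F) (T : PP c) :
    kap C hα τ (sg z σ T).1 = ee z σ * kap C hα τ T.1 := by
  unfold sg ee
  split_ifs
  · rw [one_mul]
  · rw [neg_one_mul]
    exact kap_compl C hα ha τ T.1

/-- the matrix of the automorphism -/
noncomputable def mat (ζ : ℂ) (σ : F ≃ₐ[ℚ] F) : Matrix (PP c) (PP c) ℂ := fun T T' =>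
  if T = sg z σ T' then ζ ^ (kap C hα σ T.1).val else 0

include ha hζ in
lemma mat_mul (σ τ : F ≃ₐ[ℚ] F) : mat C hα ζ (σ * τ) = mat C hα ζ σ * mat C hα ζ τ := by
  ext T T''
  rw [Matrix.mul_apply, Finset.sum_eq_single (sg z τ T'')]
  · unfold mat
    rw [if_pos rfl, sg_mul C]
    split_ifs with h
    · rw [← zp_add hζ, kap_mul C hα ha]
      congr 2
      have h2 : (sg z τ T'') = sg z σ T := by rw [h, sg_sg]
      rw [h2, kap_sg C hα ha]
    · rw [zero_mul]
  · intro T' _ h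
    unfold mat
    rw [if_neg h, mul_zero]
  · intro h
    exact absurd (Finset.mem_univ _) h

include ha in
lemma mat_one : mat C hα ζ 1 = 1 := by
  ext T T'
  unfold mat sg
  rw [AlgEquiv.one_apply, if_pos rfl, kap_one C hα ha, ZMod.val_zero, pow_zero,
    Matrix.one_apply]

/-- the representation -/
noncomputable def rho : (F ≃ₐ[ℚ] F) →* Matrix (PP c) (PP c) ℂ where
  toFun := mat C hα ζ
  map_one' := mat_one C hα ha
  map_mul' := mat_mul C hα ha hζ

lemma rho_apply (σ : F ≃ₐ[ℚ] F) : rho C hα ha hζ σ = mat C hα ζ σ := rfl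

/-- the trace of an automorphism that fixes `z` -/
lemma trace_fix {σ : F ≃ₐ[ℚ] F} (h : σ z = z) :
    (rho C hα ha hζ σ).trace = ∑ T : PP c, ζ ^ (kap C hα σ T.1).val := by
  rw [rho_apply]
  unfold Matrix.trace
  refine Finset.sum_congr rfl fun T _ => ?_
  unfold Matrix.diag mat sg
  rw [if_pos h, if_pos rfl]

/-- the trace of an automorphism that does not fix `z` -/
lemma trace_mov (hc : 0 < c) {σ : F ≃ₐ[ℚ] F} (h : σ z ≠ z) :
    (rho C hα ha hζ σ).trace = 0 := by
  rw [rho_apply]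
  unfold Matrix.trace
  refine Finset.sum_eq_zero fun T _ => ?_
  unfold Matrix.diag mat sg
  rw [if_neg h, if_neg]
  intro h1
  have h2 : T.1 = T.1ᶜ := congrArg Subtype.val h1
  have h3 : (T.1 : Finset (Fin (2 * c))).Nonempty := by
    rw [← Finset.card_pos, T.2]
    exact hc
  obtain ⟨x, hx⟩ := h3
  have h4 := hx
  rw [h2, Finset.mem_compl] at h4
  exact h4 hx

end rep

end Pool.Agent.V5helper41.BA
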