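import Mathlib
import Pool.Agent.N883.C.Cnt

/-!
# Cubes in finite fields
-/

set_option autoImplicit false
set_option linter.unusedSectionVars false

namespace Pool.Agent.V5helper41.BA

open Pool.Agent.N883.C

section
variable {L : Type} [Field L] [Fintype L]

/-- the cubes -/
theorem cube_iff (hq : Fintype.card L % 3 = 1) {d : L} (hd : d ≠ 0) :
    (∃ x : L, x ^ 3 = d) ↔ d ^ ((Fintype.card L - 1) / 3) = 1 := by
  have hh : Fintype.card L - 1 = 3 * ((Fintype.card L - 1) / 3) := by omega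
  have hpos : 1 < Fintype.card L := Fintype.one_lt_card
  constructor
  · rintro ⟨x, rfl⟩
    have hx : x ≠ 0 := by
      rintro rfl
      exact hd (zero_pow (by norm_num))
    rw [← pow_mul, ← hh]
    exact FiniteField.pow_card_sub_one_eq_one x hx
  · intro h
    classical
    obtain ⟨g, hg⟩ := IsCyclic.exists_generator (α := Lˣ)
    have hgo : orderOf g = Fintype.card L - 1 := by
      rw [orderOf_eq_card_of_forall_mem_zpowers hg, Nat.card_eq_fintype_card, Fintype.card_units]
    obtain ⟨j, hj⟩ := mem_powers_iff_mem_zpowers.2 (hg (Units.mk0 d hd))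
    have hj' : g ^ j = Units.mk0 d hd := hj
    have h1 : g ^ (j * ((Fintype.card L - 1) / 3)) = 1 := by
      rw [pow_mul, hj']
      apply Units.ext
      push_cast
      exact h
    have h2 := orderOf_dvd_of_pow_eq_one h1
    rw [hgo, hh] at h2
    have h3 : 0 < (Fintype.card L - 1) / 3 := by omega
    have h4 : 3 ∣ j := by
      have h5 : 3 * ((Fintype.card L - 1) / 3) / 3 = (Fintype.card L - 1) / 3 := by omega
      rw [h5] at h2
      exact Nat.dvd_of_mul_dvd_mul_right h3 h2
    obtain ⟨i, hi⟩ := h4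
    refine ⟨((g ^ i : Lˣ) : L), ?_⟩
    have h6 := congrArg Units.val hj'
    rw [Units.val_mk0] at h6
    rw [← h6, hi, ← Units.val_pow_eq_pow_val, ← pow_mul, mul_comm]

/-- the kernel of a cubic character -/
theorem chi_iff {χ : MulChar L ℂ} (h : χ ^ 3 = 1) (h1 : χ ≠ 1) (hq : Fintype.card L % 3 = 1)
    {d : L} (hd : d ≠ 0) : χ d = 1 ↔ d ^ ((Fintype.card L - 1) / 3) = 1 := by
  rw [← cube_iff hq hd]
  constructor
  · intro h2
    have h3 := card_cube h h1 d
    rw [h2] at h3
    have h4 : Nat.card {x : L // x ^ 3 = d} = 3 := by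
      have : ((Nat.card {x : L // x ^ 3 = d} : ℕ) : ℂ) = ((3 : ℕ) : ℂ) := by
        rw [h3]
        norm_num
      exact_mod_cast this
    have h5 : Nonempty {x : L // x ^ 3 = d} := by
      rw [← not_isEmpty_iff]
      intro h6
      rw [Nat.card_of_isEmpty] at h4
      omega
    obtain ⟨x, hx⟩ := h5
    exact ⟨x, hx⟩
  · rintro ⟨x, rfl⟩
    have hx : x ≠ 0 := by
      rintro rfl
      exact hd (zero_pow (by norm_num))
    rw [map_pow]
    exact chi3 h hx

end

/-- the symmetric sum of cubic roots of unity -/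
lemma root_sum {X : ℂ} (h : X ^ 3 = 1) : X + X ^ 2 = if X = 1 then 2 else -1 := by
  split_ifs with h1
  · rw [h1]
    norm_num
  · have h2 : (X - 1) * (X ^ 2 + X + 1) = 0 := by linear_combination h
    have h3 := (mul_eq_zero.1 h2).resolve_left (sub_ne_zero.2 h1)
    linear_combination h3

/-- two symmetric families of cubic roots of unity with the same kernel have the same sum -/
theorem sum_eq {I : Type} [Fintype I] (e : I ≃ I) (X Y : I → ℂ) (hX : ∀ i, X i ^ 3 = 1)
    (hY : ∀ i, Y i ^ 3 = 1) (hXe : ∀ i, X (e i) = X i ^ 2) (hYe : ∀ i, Y (e i) = Y i ^ 2)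
    (h : ∀ i, X i = 1 ↔ Y i = 1) : ∑ i, X i = ∑ i, Y i := by
  have key : ∀ Z : I → ℂ, (∀ i, Z i ^ 3 = 1) → (∀ i, Z (e i) = Z i ^ 2) →
      2 * ∑ i, Z i = ∑ i, (if Z i = 1 then 2 else -1) := by
    intro Z h1 h2
    have h3 : ∑ i, Z i = ∑ i, Z i ^ 2 := by
      rw [← Equiv.sum_comp e]
      exact Finset.sum_congr rfl fun i _ => h2 i
    calc 2 * ∑ i, Z i = ∑ i, Z i + ∑ i, Z i ^ 2 := by rw [← h3]; ring
      _ = ∑ i, (Z i + Z i ^ 2) := Finset.sum_add_distrib.symm
      _ = _ := Finset.sum_congr rfl fun i _ => root_sum (h1 i)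
  have h1 := key X hX hXe
  have h2 := key Y hY hYe
  have h3 : ∑ i, (if X i = 1 then (2 : ℂ) else -1) = ∑ i, (if Y i = 1 then (2 : ℂ) else -1) := by
    refine Finset.sum_congr rfl fun i _ => ?_
    by_cases h4 : X i = 1
    · rw [if_pos h4, if_pos ((h i).1 h4)]
    · rw [if_neg h4, if_neg (fun h5 => h4 ((h i).2 h5))]
  rw [h3, ← h2] at h1
  exact mul_left_cancel₀ two_ne_zero h1

end Pool.Agent.V5helper41.BA
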