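import Mathlib
import Pool.Agent.N883.DQ.Two
import Pool.Agent.V5helper41.BA.Cnt
import Pool.Agent.V5helper41.BA.Ex1
import Pool.Agent.V5helper41.BA.Ex2

/-!
# The number of the points of the diagonal cubic surfaces and the Galois representation
-/

set_option autoImplicit false
set_option linter.unusedSectionVars false

open NumberField IsDedekindDomain

namespace Pool.Agent.V5helper41.BA

open scoped Classical
open Pool.Agent.N842.EB

variable {F : Type} [Field F] [NumberField F] {S : Finset ℕ} {z : F} {r : ℕ → F}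

/-- the powers of a Frobenius element -/
lemma frob_pow {w : HeightOneSpectrum (𝓞 F)} {p : ℕ} {σ : F ≃ₐ[ℚ] F}
    (hσ : ∀ x : 𝓞 F, σ • x - x ^ p ∈ w.asIdeal) (n : ℕ) (x : 𝓞 F) :
    (σ ^ n) • x - x ^ (p ^ n) ∈ w.asIdeal := by
  have h0 : ∀ y : 𝓞 F, Ideal.Quotient.mk w.asIdeal (σ • y) = Ideal.Quotient.mk w.asIdeal y ^ p := by
    intro y
    rw [← map_pow, Ideal.Quotient.eq]
    exact hσ y
  rw [← Ideal.Quotient.eq, map_pow]
  induction n generalizing x with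
  | zero => simp
  | succ n ih =>
    rw [pow_succ, mul_smul, ih, h0, ← pow_mul, ← pow_succ']

lemma int_mem {w : HeightOneSpectrum (𝓞 F)} {p : ℕ} (hp : p.Prime) (hw : (p : 𝓞 F) ∈ w.asIdeal)
    (n : ℤ) : (n : 𝓞 F) ∈ w.asIdeal ↔ (p : ℤ) ∣ n := by
  constructor
  · intro h
    by_contra h1
    have h2 : IsCoprime (p : ℤ) n :=
      (Prime.coprime_iff_not_dvd (Nat.prime_iff_prime_int.1 hp)).2 h1
    obtain ⟨x, y, hxy⟩ := h2
    apply w.isPrime.ne_top
    rw [Ideal.eq_top_iff_one]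
    have h3 : (1 : 𝓞 F) = (x : 𝓞 F) * (p : 𝓞 F) + (y : 𝓞 F) * (n : 𝓞 F) := by
      have h4 := congrArg (fun x : ℤ => (x : 𝓞 F)) hxy
      push_cast at h4
      exact h4.symm
    rw [h3]
    exact Ideal.add_mem _ (Ideal.mul_mem_left _ _ hw) (Ideal.mul_mem_left _ _ h)
  · rintro ⟨k, rfl⟩
    push_cast
    exact Ideal.mul_mem_right _ _ hw

section
variable (C : Ctx S z r) {m : ℕ} {a : Fin m → ℤ} {α : Fin m → F}
  (hα : ∀ i, α i ^ 3 = (a i : F)) (ha : ∀ i, a i ≠ 0)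

include hα in
lemma uT_int (T : Finset (Fin m)) : IsIntegral ℤ (uT α T) := by
  refine IsIntegral.of_pow (n := 3) (by norm_num) ?_
  rw [uT_cube hα]
  have h2 : IsIntegral ℤ (algebraMap ℤ F (Dt a T)) := isIntegral_algebraMap
  simpa using h2

/-- the exponent of the power of a Frobenius element -/
theorem kap_frob {w : HeightOneSpectrum (𝓞 F)} {p : ℕ} (hp : p.Prime)
    (hw : (p : 𝓞 F) ∈ w.asIdeal) (hpa : ∀ i, ¬ (p : ℤ) ∣ a i) {q : ℕ} (hq : q % 3 = 1)
    {τ : F ≃ₐ[ℚ] F} (hτ : ∀ x : 𝓞 F, τ • x - x ^ q ∈ w.asIdeal) (T : Finset (Fin m)) :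
    C.zO ^ (kap C hα τ T).val - ((Dt a T ^ ((q - 1) / 3) : ℤ) : 𝓞 F) ∈ w.asIdeal := by
  set u : 𝓞 F := ⟨uT α T, uT_int hα T⟩ with hu
  have hu3 : u ^ 3 = ((Dt a T : ℤ) : 𝓞 F) := by
    apply RingOfIntegers.ext
    push_cast
    exact uT_cube hα T
  have hnd : ¬ (p : ℤ) ∣ Dt a T := by
    have hpp := Nat.prime_iff_prime_int.1 hp
    unfold Dt
    intro h
    rcases hpp.dvd_or_dvd h with h1 | h1
    · obtain ⟨i, -, hi⟩ := (hpp.dvd_finsetProd_iff _).1 h1
      exact hpa i hi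
    · obtain ⟨i, -, hi⟩ := (hpp.dvd_finsetProd_iff _).1 h1
      exact hpa i hi
  have huw : u ∉ w.asIdeal := by
    intro h
    apply hnd
    rw [← int_mem hp hw, ← hu3]
    exact Ideal.pow_mem_of_mem _ h 3 (by norm_num)
  have h1 := hτ u
  have h2 : τ • u = C.zO ^ (kap C hα τ T).val * u := by
    apply RingOfIntegers.ext
    exact kap_spec C hα τ T
  have hq3 : q = 3 * ((q - 1) / 3) + 1 := by omega
  have e : C.zO ^ (kap C hα τ T).val * u - u ^ q =
      (C.zO ^ (kap C hα τ T).val - ((Dt a T ^ ((q - 1) / 3) : ℤ) : 𝓞 F)) * u := by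
    have h3 : u ^ q = ((Dt a T ^ ((q - 1) / 3) : ℤ) : 𝓞 F) * u := by
      conv_lhs => rw [hq3]
      rw [pow_succ, pow_mul, hu3]
      push_cast
      rfl
    rw [h3]
    ring
  rw [h2, e] at h1
  rcases w.isPrime.mem_or_mem h1 with h3 | h3
  · exact h3
  · exact absurd h3 huw

/-- the criterion -/
theorem kap_iff {w : HeightOneSpectrum (𝓞 F)} {p : ℕ} (hp : p.Prime) (hp3 : p ≠ 3)
    (hw : (p : 𝓞 F) ∈ w.asIdeal) (hpa : ∀ i, ¬ (p : ℤ) ∣ a i) {q : ℕ} (hq : q % 3 = 1)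
    {τ : F ≃ₐ[ℚ] F} (hτ : ∀ x : 𝓞 F, τ • x - x ^ q ∈ w.asIdeal) (T : Finset (Fin m))
    (L : Type) [Field L] [CharP L p] :
    kap C hα τ T = 0 ↔ ((Dt a T : ℤ) : L) ^ ((q - 1) / 3) = 1 := by
  have h1 := kap_frob C hα hp hw hpa hq hτ T
  have h3 : ((3 : ℕ) : 𝓞 F) ∉ w.asIdeal := by
    intro h
    have h4 := (int_mem hp hw 3).1 (by exact_mod_cast h)
    have h5 : p ∣ 3 := by exact_mod_cast h4
    exact hp3 ((Nat.prime_dvd_prime_iff_eq hp Nat.prime_three).1 h5)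
  have h4 : ((Dt a T : ℤ) : L) ^ ((q - 1) / 3) = 1 ↔ (p : ℤ) ∣ Dt a T ^ ((q - 1) / 3) - 1 := by
    rw [← CharP.intCast_eq_zero_iff L p]
    push_cast
    rw [sub_eq_zero]
  rw [h4, ← int_mem hp hw]
  constructor
  · intro h
    rw [h, ZMod.val_zero, pow_zero] at h1
    have h5 := Ideal.neg_mem_iff _ |>.2 h1
    have e : ((Dt a T ^ ((q - 1) / 3) - 1 : ℤ) : 𝓞 F) =
        -(1 - ((Dt a T ^ ((q - 1) / 3) : ℤ) : 𝓞 F)) := by
      push_cast
      ring
    rw [e]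
    exact h5
  · intro h
    apply C.one_sub h3
    have h5 := Ideal.add_mem _ h1 h
    have e : C.zO ^ (kap C hα τ T).val - ((Dt a T ^ ((q - 1) / 3) : ℤ) : 𝓞 F) +
        ((Dt a T ^ ((q - 1) / 3) - 1 : ℤ) : 𝓞 F) = C.zO ^ (kap C hα τ T).val - 1 := by
      push_cast
      ring
    rwa [e] at h5

end

section count
variable (C : Ctx S z r) {c : ℕ} {a : Fin (2 * c) → ℤ} {α : Fin (2 * c) → F}
  (hα : ∀ i, α i ^ 3 = (a i : F)) (ha : ∀ i, a i ≠ 0) {ζ : ℂ} (hζ : ζ ^ 2 + ζ + 1 = 0)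

/-- the complement -/
def cmp {c : ℕ} : PP c ≃ PP c where
  toFun := fun T => ⟨T.1ᶜ, by
    rw [Finset.card_compl, Fintype.card_fin, T.2]
    omega⟩
  invFun := fun T => ⟨T.1ᶜ, by
    rw [Finset.card_compl, Fintype.card_fin, T.2]
    omega⟩
  left_inv := fun T => Subtype.ext (compl_compl T.1)
  right_inv := fun T => Subtype.ext (compl_compl T.1)

lemma zp_one_iff {ζ : ℂ} (hζ : ζ ^ 2 + ζ + 1 = 0) (c : ZMod 3) : ζ ^ c.val = 1 ↔ c = 0 := by
  have h0 : ζ ≠ 1 := by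
    rintro rfl
    norm_num at hζ
  have h1 : ζ ^ 2 ≠ 1 := by
    intro h
    have h2 : ζ = -2 := by linear_combination hζ - h
    rw [h2] at h
    norm_num at h
  have h3 : ∀ c : ZMod 3, c = 0 ∨ c = 1 ∨ c = 2 := by decide
  rcases h3 c with h | h | h
  · subst h
    simp
  · subst h
    have e : (1 : ZMod 3).val = 1 := rfl
    rw [e, pow_one]
    exact ⟨fun h => absurd h h0, fun h => absurd h (by decide)⟩
  · subst h
    have e : (2 : ZMod 3).val = 2 := rfl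
    rw [e]
    exact ⟨fun h => absurd h h1, fun h => absurd h (by decide)⟩

/-- **The number of the points.** -/
theorem count_even (hc : c = 1 ∨ c = 2) {w : HeightOneSpectrum (𝓞 F)} {p : ℕ} (hp : p.Prime)
    (hp3 : p ≠ 3) (hw : (p : 𝓞 F) ∈ w.asIdeal) (hpa : ∀ i, ¬ (p : ℤ) ∣ a i)
    {σ : F ≃ₐ[ℚ] F} (hσ : ∀ x : 𝓞 F, σ • x - x ^ p ∈ w.asIdeal) (L : Type) [Field L] [Finite L]
    (n : ℕ) (hL : Nat.card L = p ^ n) :
    ((PC a L).ncard : ℂ) = ∑ j ∈ Finset.range (2 * c - 1), ((p : ℂ) ^ n) ^ j +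
      ((p : ℂ) ^ n) ^ (c - 1) * (rho C hα ha hζ σ⁻¹ ^ n).trace := by
  let _ : Fintype L := Fintype.ofFinite L
  have hcL : Fintype.card L = p ^ n := by rw [← Nat.card_eq_fintype_card, hL]
  have hq1 : 1 < Fintype.card L := Fintype.one_lt_card
  have hn : n ≠ 0 := by
    rintro rfl
    rw [hcL, pow_zero] at hq1
    exact lt_irrefl _ hq1
  have hchar : CharP L p := by
    obtain ⟨p', hp'⟩ := CharP.exists L
    obtain ⟨j, hj1, hj2⟩ := FiniteField.card L p'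
    have h1 : p' ∣ p ^ n := by
      rw [← hcL, hj2]
      exact dvd_pow_self _ j.ne_zero
    have h2 := (Nat.prime_dvd_prime_iff_eq hj1 hp).1 (hj1.dvd_of_dvd_pow h1)
    rwa [← h2]
  have h3 : ((3 : ℕ) : 𝓞 F) ∉ w.asIdeal := by
    intro h
    have h4 := (int_mem hp hw 3).1 (by exact_mod_cast h)
    have h5 : p ∣ 3 := by exact_mod_cast h4
    exact hp3 ((Nat.prime_dvd_prime_iff_eq hp Nat.prime_three).1 h5)
  have haL : ∀ i, ((a i : ℤ) : L) ≠ 0 := by
    intro i h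
    rw [CharP.intCast_eq_zero_iff L p] at h
    exact hpa i h
  set τ := σ ^ n with hτdef
  have hτ : ∀ x : 𝓞 F, τ • x - x ^ (p ^ n) ∈ w.asIdeal := fun x => frob_pow hσ n x
  have hrho : rho C hα ha hζ σ⁻¹ ^ n = rho C hα ha hζ τ⁻¹ := by
    rw [← map_pow, hτdef, inv_pow]
  rw [hrho]
  -- the cone
  have hcone : (Nat.card {x : Fin (2 * c) → L // ∑ i, (a i : L) * x i ^ 3 = 0} : ℂ) - 1 =
      ((PC a L).ncard : ℂ) * ((p : ℂ) ^ n - 1) := by
    have h4 := card_PC a L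
    have h5 : ({x : Fin (2 * c) → L | ∑ i, (a i : L) * x i ^ 3 = 0}) =
        insert 0 {x : Fin (2 * c) → L | x ≠ 0 ∧ ∑ i, (a i : L) * x i ^ 3 = 0} := by
      ext x
      simp only [Set.mem_ofPred_eq, Set.mem_insert_iff]
      constructor
      · intro h
        by_cases hx : x = 0
        · exact Or.inl hx
        · exact Or.inr ⟨hx, h⟩
      · rintro (rfl | h)
        · simp
        · exact h.2
    have h6 : Nat.card {x : Fin (2 * c) → L // ∑ i, (a i : L) * x i ^ 3 = 0} =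
        Nat.card {x : Fin (2 * c) → L // x ≠ 0 ∧ ∑ i, (a i : L) * x i ^ 3 = 0} + 1 := by
      have h7 : Nat.card {x : Fin (2 * c) → L // ∑ i, (a i : L) * x i ^ 3 = 0} =
        ({x : Fin (2 * c) → L | ∑ i, (a i : L) * x i ^ 3 = 0}).ncard :=
          Nat.card_coe_set_eq {x : Fin (2 * c) → L | ∑ i, (a i : L) * x i ^ 3 = 0}
      have h8 : Nat.card {x : Fin (2 * c) → L // x ≠ 0 ∧ ∑ i, (a i : L) * x i ^ 3 = 0} =
        ({x : Fin (2 * c) → L | x ≠ 0 ∧ ∑ i, (a i : L) * x i ^ 3 = 0}).ncard :=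
          Nat.card_coe_set_eq {x : Fin (2 * c) → L | x ≠ 0 ∧ ∑ i, (a i : L) * x i ^ 3 = 0}
      rw [h7, h8, h5, Set.ncard_insert_of_notMem (by simp) (Set.toFinite _)]
    rw [h6, h4, hL]
    have h9 : 1 ≤ p ^ n := Nat.one_le_pow _ _ hp.pos
    push_cast [Nat.cast_sub h9]
    ring
  have hq0 : ((p : ℂ) ^ n - 1) ≠ 0 := by
    rw [sub_ne_zero]
    intro h
    have h4 : p ^ n = 1 := by exact_mod_cast h
    rw [hcL, h4] at hq1
    exact lt_irrefl _ hq1
  have hgeo : (∑ j ∈ Finset.range (2 * c - 1), ((p : ℂ) ^ n) ^ j) * ((p : ℂ) ^ n - 1) =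
      ((p : ℂ) ^ n) ^ (2 * c - 1) - 1 := geom_sum_mul _ _
  apply mul_right_cancel₀ hq0
  rw [← hcone, add_mul, hgeo]
  have hm : (p ^ n) % 3 = 1 ∨ (p ^ n) % 3 = 2 := by
    have h4 : (p ^ n) % 3 ≠ 0 := by
      intro h
      have h5 := Nat.prime_three.dvd_of_dvd_pow (Nat.dvd_of_mod_eq_zero h)
      exact hp3 ((Nat.prime_dvd_prime_iff_eq Nat.prime_three hp).1 h5).symm
    omega
  rcases hm with hm | hm
  · obtain ⟨χ, hχ, hχ1⟩ := Pool.Agent.N883.C.exists_cubic (k := L) (by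
      rw [hcL]
      omega)
    obtain ⟨ψ, hψ⟩ : ∃ ψ : AddChar L ℂ, ψ ≠ 1 := by
      obtain ⟨ψ, hψ⟩ := (AddChar.exists_apply_ne_zero (a := (1 : L))).2 one_ne_zero
      refine ⟨ψ, ?_⟩
      rintro rfl
      simp at hψ
    have h4 := card_even (k := L) hc hχ hχ1 hψ (a := fun i => ((a i : ℤ) : L)) haL
    have hτz : τ z = z := C.frob_one h3 hm hτ
    have hτz' : τ⁻¹ z = z := by
      have h5 : τ⁻¹ (τ z) = z := by
        rw [← AlgEquiv.mul_apply, inv_mul_cancel, AlgEquiv.one_apply]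
      rwa [hτz] at h5
    have hDt : ∀ T : Finset (Fin (2 * c)), Dt (fun i => ((a i : ℤ) : L)) T = ((Dt a T : ℤ) : L) := by
      intro T
      unfold Dt
      push_cast
      rfl
    have hDL : ∀ T : Finset (Fin (2 * c)), ((Dt a T : ℤ) : L) ≠ 0 := by
      intro T
      rw [← hDt]
      exact mul_ne_zero (Finset.prod_ne_zero_iff.2 fun i _ => haL i)
        (Finset.prod_ne_zero_iff.2 fun i _ => haL i)
    have hkinv : ∀ T, kap C hα τ⁻¹ T = -kap C hα τ T := by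
      intro T
      have h5 := kap_mul C hα ha τ τ⁻¹ T
      rw [mul_inv_cancel, kap_one C hα ha] at h5
      have h6 : ee z τ = 1 := if_pos hτz
      rw [h6, one_mul] at h5
      exact (neg_eq_of_add_eq_zero_right h5.symm).symm
    rw [h4, trace_fix C hα ha hζ hτz', hcL]
    have hsum : ∑ T ∈ (Finset.univ : Finset (Fin (2 * c))).powersetCard c,
        χ (Dt (fun i => ((a i : ℤ) : L)) T) = ∑ T : PP c, χ ((Dt a T.1 : ℤ) : L) := by
      rw [← Finset.sum_coe_sort]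
      refine Fintype.sum_equiv (Equiv.subtypeEquivRight fun T => ?_) _ _ fun T => ?_
      · simp [Finset.mem_powersetCard]
      · rw [hDt]
        rfl
    have hkey : ∑ T : PP c, χ ((Dt a T.1 : ℤ) : L) = ∑ T : PP c, ζ ^ (kap C hα τ⁻¹ T.1).val := by
      refine sum_eq cmp _ _ (fun T => ?_) (fun T => ?_) (fun T => ?_) (fun T => ?_) fun T => ?_
      · exact Pool.Agent.N883.C.chi3 hχ (hDL T.1)
      · have h5 : ζ ^ 3 = 1 := by linear_combination (ζ - 1) * hζ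
        rw [← pow_mul, mul_comm, pow_mul, h5, one_pow]
      · show χ ((Dt a (T.1)ᶜ : ℤ) : L) = χ ((Dt a T.1 : ℤ) : L) ^ 2
        have h5 : ((Dt a (T.1)ᶜ : ℤ) : L) * ((Dt a T.1 : ℤ) : L) = (∏ i, ((a i : ℤ) : L)) ^ 3 := by
          have h6 : (∏ i ∈ T.1, ((a i : ℤ) : L)) * ∏ i ∈ (T.1)ᶜ, ((a i : ℤ) : L) =
            ∏ i, ((a i : ℤ) : L) := Finset.prod_mul_prod_compl T.1 _
          rw [← hDt, ← hDt]
          unfold Dt
          linear_combination (∏ i, ((a i : ℤ) : L)) ^ 2 * h6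
        have h7 : χ ((Dt a (T.1)ᶜ : ℤ) : L) * χ ((Dt a T.1 : ℤ) : L) = 1 := by
          rw [← map_mul, h5, map_pow]
          exact Pool.Agent.N883.C.chi3 hχ (Finset.prod_ne_zero_iff.2 fun i _ => haL i)
        have h8 := Pool.Agent.N883.C.chi3 hχ (hDL T.1)
        linear_combination (χ ((Dt a T.1 : ℤ) : L)) ^ 2 * h7 - χ ((Dt a (T.1)ᶜ : ℤ) : L) * h8
      · show ζ ^ (kap C hα τ⁻¹ (T.1)ᶜ).val = (ζ ^ (kap C hα τ⁻¹ T.1).val) ^ 2
        rw [kap_compl C hα ha]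
        generalize kap C hα τ⁻¹ T.1 = x
        have h5 : ζ ^ 3 = 1 := by linear_combination (ζ - 1) * hζ
        rw [← pow_mul, mul_comm]
        rcases neg_val3 x with h6 | h6
        · rw [h6]
        · rw [h6, pow_add, h5, mul_one]
      · have h5 := chi_iff hχ hχ1 (by rw [hcL]; exact hm) (hDL T.1)
        rw [h5, hcL, zp_one_iff hζ, hkinv, neg_eq_zero]
        exact (kap_iff C hα hp hp3 hw hpa hm hτ T.1 L).symm
    rw [hsum, hkey]
    push_cast
    ring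
  · have h4 := Pool.Agent.N883.DQ.card_two (k := L) (m := 2 * c - 1) (by rw [hcL]; exact hm)
      (a := fun i => ((a (Fin.cast (by omega) i) : ℤ) : L)) (fun i => haL _)
    have h5 : Nat.card {x : Fin (2 * c) → L // ∑ i, (a i : L) * x i ^ 3 = 0} =
        Nat.card (Pool.Agent.N883.DQ.Cn fun i : Fin (2 * c - 1 + 1) =>
          ((a (Fin.cast (by omega) i) : ℤ) : L)) := by
      have e : 2 * c - 1 + 1 = 2 * c := by omega
      refine Nat.card_congr (Equiv.subtypeEquiv (Equiv.arrowCongr (finCongr e.symm)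
        (Equiv.refl L)) fun x => ?_)
      have h6 : ∑ i, (a i : L) * x i ^ 3 = ∑ i : Fin (2 * c - 1 + 1),
          ((a (Fin.cast e i) : ℤ) : L) *
            (Equiv.arrowCongr (finCongr e.symm) (Equiv.refl L)) x i ^ 3 := by
        refine (Fintype.sum_equiv (finCongr e) _ _ fun i => ?_).symm
        rfl
      rw [h6]
    have hτz : τ z ≠ z := C.frob_two h3 hm hτ
    have hτz' : τ⁻¹ z ≠ z := by
      intro h
      apply hτz
      have h5 : τ (τ⁻¹ z) = z := by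
        rw [← AlgEquiv.mul_apply, mul_inv_cancel, AlgEquiv.one_apply]
      rwa [h] at h5
    rw [trace_mov C hα ha hζ (by omega) hτz', h5, h4, hcL]
    push_cast
    ring

end count

end Pool.Agent.V5helper41.BA
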