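import Mathlib
import Pool.Agent.V5helper41.BA.Ex3

/-!
# The diagonal cubic surfaces are split by `ℚ(ω, ∛l : l ∈ S)`
-/

set_option autoImplicit false
set_option linter.unusedSectionVars false

open NumberField IsDedekindDomain

namespace Pool.Agent.V5helper41.BA

open scoped Classical
open Pool.Agent.N842.EB

section trace

variable {G : Type} [Group G]

/-- a representation on `Fin b` -/
lemma to_fin {ι : Type} [Fintype ι] [DecidableEq ι] (ρ : G →* Matrix ι ι ℂ) :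
    ∃ (b : ℕ) (ρ' : G →* Matrix (Fin b) (Fin b) ℂ), ∀ g, (ρ' g).trace = (ρ g).trace := by
  refine ⟨Fintype.card ι, ((Matrix.reindexAlgEquiv ℂ ℂ (Fintype.equivFin ι) :
    Matrix ι ι ℂ ≃ₐ[ℂ] Matrix (Fin (Fintype.card ι)) (Fin (Fintype.card ι)) ℂ) :
    Matrix ι ι ℂ →* Matrix (Fin (Fintype.card ι)) (Fin (Fintype.card ι)) ℂ).comp ρ, fun g => ?_⟩
  show (Matrix.reindex (Fintype.equivFin ι) (Fintype.equivFin ι) (ρ g)).trace = _
  unfold Matrix.trace
  refine Fintype.sum_equiv (Fintype.equivFin ι).symm _ _ fun i => ?_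
  rfl

/-- the sum of two representations -/
noncomputable def plus {ι κ : Type} [Fintype ι] [Fintype κ] [DecidableEq ι] [DecidableEq κ]
    (ρ : G →* Matrix ι ι ℂ)
    (ρ' : G →* Matrix κ κ ℂ) : G →* Matrix (ι ⊕ κ) (ι ⊕ κ) ℂ where
  toFun := fun g => Matrix.fromBlocks (ρ g) 0 0 (ρ' g)
  map_one' := by
    rw [map_one, map_one, Matrix.fromBlocks_one]
  map_mul' := fun g h => by
    rw [Matrix.fromBlocks_multiply, map_mul, map_mul]
    simp

lemma plus_trace {ι κ : Type} [Fintype ι] [Fintype κ] [DecidableEq ι] [DecidableEq κ]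
    (ρ : G →* Matrix ι ι ℂ) (ρ' : G →* Matrix κ κ ℂ) (g : G) :
    (plus ρ ρ' g).trace = (ρ g).trace + (ρ' g).trace := by
  show (Matrix.fromBlocks (ρ g) 0 0 (ρ' g)).trace = _
  unfold Matrix.trace
  rw [Fintype.sum_sum_type]
  rfl

/-- the trivial representation of dimension `#ι` -/
noncomputable def tri (G : Type) [Group G] (ι : Type) [Fintype ι] [DecidableEq ι] :
    G →* Matrix ι ι ℂ where
  toFun := fun _ => 1
  map_one' := rfl
  map_mul' := fun _ _ => (mul_one 1).symm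

lemma tri_trace (G : Type) [Group G] (ι : Type) [Fintype ι] [DecidableEq ι] (g : G) :
    (tri G ι g).trace = Fintype.card ι := by
  show (1 : Matrix ι ι ℂ).trace = _
  exact Matrix.trace_one

end trace

variable {F : Type} [Field F] [NumberField F] {S : Finset ℕ} {z : F} {r : ℕ → F}

/-- the cube roots of the coefficients -/
lemma exists_root (C : Ctx S z r) {n : ℤ} (hn : n ≠ 0)
    (h : ∀ p : ℕ, p.Prime → (p : ℤ) ∣ n → p ∈ S) : ∃ x : F, x ^ 3 = (n : F) := by
  have hw : ∀ w : ℕ, w ≠ 0 → (∀ p : ℕ, p.Prime → p ∣ w → p ∈ S) → ∃ x : F, x ^ 3 = (w : F) := by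
    intro w hw0 hwS
    have h1 : w = ∏ l ∈ S, l ^ w.factorization l := by
      conv_lhs => rw [← Nat.prod_factorization_pow_eq_self hw0]
      refine Finsupp.prod_of_support_subset _ ?_ _ (fun i _ => pow_zero i)
      intro p hp
      rw [Nat.support_factorization] at hp
      have := Nat.mem_primeFactors.1 hp
      exact hwS p this.1 this.2.1
    refine ⟨∏ l ∈ S, r l ^ w.factorization l, ?_⟩
    conv_rhs => rw [h1]
    rw [← Finset.prod_pow]
    push_cast
    refine Finset.prod_congr rfl fun l hl => ?_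
    rw [← pow_mul, mul_comm, pow_mul, C.hr l hl]
  obtain ⟨x, hx⟩ := hw n.natAbs (Int.natAbs_ne_zero.2 hn) fun p hp hd =>
    h p hp (Int.natCast_dvd.2 hd)
  rcases Int.natAbs_eq n with h1 | h1
  · refine ⟨x, ?_⟩
    have h2 := congrArg (fun y : ℤ => (y : F)) h1
    beta_reduce at h2
    rw [hx, h2, Int.cast_natCast]
  · refine ⟨-x, ?_⟩
    rw [neg_pow, show ((-1 : F)) ^ 3 = -1 by norm_num, hx, neg_one_mul]
    have h2 := congrArg (fun y : ℤ => (y : F)) h1
    beta_reduce at h2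
    rw [h2, Int.cast_neg, Int.cast_natCast]

/-- **The diagonal cubic surfaces and the cubic algebras are split by `F`.** -/
theorem split_even (C : Ctx S z r) {c : ℕ} (hc : c = 1 ∨ c = 2) {a : Fin (2 * c) → ℤ}
    (ha : ∀ i, a i ≠ 0) (haS : ∀ i, ∀ p : ℕ, p.Prime → (p : ℤ) ∣ a i → p ∈ S) :
    ∃ (b : ℕ → ℕ) (ρ : ∀ k, (F ≃ₐ[ℚ] F) →* Matrix (Fin (b k)) (Fin (b k)) ℂ),
      ∀ (p : ℕ) (w : HeightOneSpectrum (𝓞 F)) (σ : F ≃ₐ[ℚ] F), p.Prime → p ≠ 3 → p ∉ S →
        (p : 𝓞 F) ∈ w.asIdeal → (∀ x : 𝓞 F, σ • x - x ^ p ∈ w.asIdeal) →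
        ∀ (L : Type) [Field L] [Finite L] (n : ℕ), Nat.card L = p ^ n →
          ((PC a L).ncard : ℂ) =
            ∑ k ∈ Finset.range (2 * c), (ρ k σ⁻¹ ^ n).trace * ((p : ℂ) ^ n) ^ k := by
  obtain ⟨ζ, hζ⟩ : ∃ ζ : ℂ, ζ ^ 2 + ζ + 1 = 0 := by
    refine ⟨(-1 + Complex.I * (Real.sqrt 3 : ℝ)) / 2, ?_⟩
    have h1 : ((Real.sqrt 3 : ℝ) : ℂ) ^ 2 = 3 := by
      have h2 : (Real.sqrt 3) ^ 2 = (3 : ℝ) := Real.sq_sqrt (by norm_num)
      exact_mod_cast congrArg (fun x : ℝ => (x : ℂ)) h2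
    have h2 := Complex.I_sq
    field_simp
    linear_combination (Complex.I ^ 2) * h1 + 3 * h2
  choose α hα using fun i => exists_root C (ha i) (haS i)
  have key : ∀ k : ℕ, ∃ (b : ℕ) (ρ : (F ≃ₐ[ℚ] F) →* Matrix (Fin b) (Fin b) ℂ), ∀ g,
      (ρ g).trace = (if k < 2 * c - 1 then 1 else 0) +
        (if k = c - 1 then (rho C hα ha hζ g).trace else 0) := by
    intro k
    have h0 : ∃ (ι : Type) (_ : Fintype ι) (_ : DecidableEq ι) (ρ : (F ≃ₐ[ℚ] F) →* Matrix ι ι ℂ),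
        ∀ g, (ρ g).trace = (if k < 2 * c - 1 then 1 else 0) +
          (if k = c - 1 then (rho C hα ha hζ g).trace else 0) := by
      have h1 : ∃ (ι : Type) (_ : Fintype ι) (_ : DecidableEq ι)
          (ρ : (F ≃ₐ[ℚ] F) →* Matrix ι ι ℂ), ∀ g,
          (ρ g).trace = (if k < 2 * c - 1 then 1 else 0) := by
        by_cases hk : k < 2 * c - 1
        · refine ⟨Unit, inferInstance, inferInstance, tri _ Unit, fun g => ?_⟩
          rw [if_pos hk, tri_trace]
          simp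
        · refine ⟨Empty, inferInstance, inferInstance, tri _ Empty, fun g => ?_⟩
          rw [if_neg hk, tri_trace]
          simp
      have h2 : ∃ (ι : Type) (_ : Fintype ι) (_ : DecidableEq ι)
          (ρ : (F ≃ₐ[ℚ] F) →* Matrix ι ι ℂ), ∀ g,
          (ρ g).trace = (if k = c - 1 then (rho C hα ha hζ g).trace else 0) := by
        by_cases hk : k = c - 1
        · refine ⟨PP c, _, _, rho C hα ha hζ, fun g => ?_⟩
          rw [if_pos hk]
        · refine ⟨Empty, inferInstance, inferInstance, tri _ Empty, fun g => ?_⟩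
          rw [if_neg hk, tri_trace]
          simp
      obtain ⟨ι, _, _, ρ, hρ⟩ := h1
      obtain ⟨κ, _, _, ρ', hρ'⟩ := h2
      refine ⟨ι ⊕ κ, _, _, plus ρ ρ', fun g => ?_⟩
      rw [plus_trace, hρ, hρ']
    obtain ⟨ι, _, _, ρ, hρ⟩ := h0
    obtain ⟨b, ρ', hρ'⟩ := to_fin ρ
    exact ⟨b, ρ', fun g => (hρ' g).trans (hρ g)⟩
  choose b ρ hρ using key
  refine ⟨b, ρ, fun p w σ hp hp3 hpS hw hσ L _ _ n hL => ?_⟩
  rw [count_even C hα ha hζ hc hp hp3 hw (fun i h => hpS (haS i p hp h)) hσ L n hL]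
  have h1 : ∀ k, (ρ k σ⁻¹ ^ n).trace * ((p : ℂ) ^ n) ^ k =
      (if k < 2 * c - 1 then ((p : ℂ) ^ n) ^ k else 0) +
        (if k = c - 1 then ((p : ℂ) ^ n) ^ k * (rho C hα ha hζ σ⁻¹ ^ n).trace else 0) := by
    intro k
    rw [← map_pow, hρ, ← map_pow]
    split_ifs <;> ring
  rw [Finset.sum_congr rfl fun k _ => h1 k, Finset.sum_add_distrib]
  congr 1
  · rw [← Finset.sum_filter]
    refine Finset.sum_congr ?_ fun _ _ => rfl
    ext k
    simp only [Finset.mem_range, Finset.mem_filter]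
    omega
  · rw [Finset.sum_ite_eq', if_pos]
    rw [Finset.mem_range]
    omega

end Pool.Agent.V5helper41.BA
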