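import Pool.Agent.V5helper41.BA.Ana

/-!
# The products of the diagonal cubics with the varieties of Artin–Tate type
-/

set_option autoImplicit false
set_option linter.unusedSectionVars false
set_option linter.unusedVariables false

open NumberField IsDedekindDomain

namespace Pool.Agent.V5helper41.BA

open scoped Classical
open Finset
open Pool.Agent.Y692.QS (Ei w nr toC)
open Pool.Agent.Y703.CT (WD Cls NoSplit Base IsL)
open Pool.Agent.N842.EB (EF Ctx twD mt)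
open Pool.Agent.N883.DQ (IsBeta exists_beta eigs eigs_card eigs_mem frob Dt Fam fam_abs Smo smo_eq
  AllG allG_one allG_two IsTwK tw_K fin_K sq_of)
open Pool.Agent.R432.JG (Cl AG Pre twN tw_cls pre_of all_goodK)
open Pool.Agent.R432.C (ED)

variable {M : Finset ℕ} {F : Type} [Field F] [NumberField F] {z : F} {r : ℕ → F}

/-- the coefficients are prime to the good primes -/
lemma fam_ndvd {D B : ℕ} (hBd : 3 * D * ∏ l ∈ M, l ∣ B) {m : ℕ} {a : Fin m → ℤ} (ha : Fam M D a)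
    {p : ℕ} (hp : p.Prime) (hpB : ¬ p ∣ B) (i : Fin m) : ¬ (p : ℤ) ∣ a i := by
  intro h
  apply hpB
  refine dvd_trans ?_ hBd
  obtain ⟨j, h0, h1⟩ := ha
  by_cases hij : i = j
  · subst hij
    have h2 : p ∣ (a i).natAbs := Int.natCast_dvd.1 h
    have h3 : p ∣ D := by
      rcases h0 with h0 | h0
      · rwa [h0] at h2
      · rw [h0] at h2
        exact hp.dvd_of_dvd_pow h2
    exact Dvd.dvd.mul_right (Dvd.dvd.mul_left h3 _) _
  · exact Dvd.dvd.mul_left (Finset.dvd_prod_of_mem (fun l : ℕ => l) ((h1 i hij).2 p hp h)) _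

/-- **The `L`-function of the product in an odd degree.** -/
theorem main_L (C : Ctx M z r) (hM : ∀ l ∈ M, l.Prime ∧ l % 9 = 1) {D : ℕ} (hC : Cl M D)
    (hA : ∀ t : {l : ℕ // l ∈ M} → ZMod 3, NoSplit (twN D M t)) {B : ℕ} (hB : B ≠ 0)
    (hBd : 3 * D * ∏ l ∈ M, l ∣ B) {c : ℕ} {a : Fin (2 * c + 3) → ℤ} (ha : Fam M D a) (N : ℕ)
    {b : ℕ → ℕ} (ρ : ∀ k, (F ≃ₐ[ℚ] F) →* Matrix (Fin (b k)) (Fin (b k)) ℂ)
    {v : Nat.Primes → HeightOneSpectrum (𝓞 F)}
    (hv : ∀ p : Nat.Primes, ((p : ℕ) : 𝓞 F) ∈ (v p).asIdeal)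
    {σ : Nat.Primes → F ≃ₐ[ℚ] F}
    (hσ : ∀ (p : Nat.Primes) (x : 𝓞 F), σ p • x - x ^ (p : ℕ) ∈ (v p).asIdeal)
    {β : ∀ p : Nat.Primes, ZMod p → ℂ}
    (hβ : ∀ p : Nat.Primes, ¬ (p : ℕ) ∣ B → (haveI := Fact.mk p.2; IsBeta (β p)))
    {i : ℕ} (hi : Odd i) :
    ∃ L : ℂ → ℂ, Differentiable ℂ L ∧ (∀ s : ℂ, (i : ℝ) / 2 + 1 < s.re →
      HasProd (fun p : Nat.Primes => if (p : ℕ) ∣ B then 1 else
        ((Aw (2 * c + 1) N ((p : ℕ) : ℂ) (eigs c a p fun δ => β p ((δ : ℤ) : ZMod p))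
          (fun k => ev (ρ k (σ p)⁻¹)) i).map fun α =>
            (1 - α * ((p : ℕ) : ℂ) ^ (-s))⁻¹).prod) (L s)) ∧ L ((i + 1) / 2) ≠ 0 := by
  have hD0 : D ≠ 0 := hC.1.ne_zero
  have hall : ∀ E : ℕ, (E = D ∨ E = D ^ 2) → AllG M E := by
    rintro E (rfl | rfl)
    · exact allG_one hM hC hA
    · exact allG_two hM hC hA
  choose E W Y hE hW hY hEW using fun T => fam_abs ha hD0 T
  have hg : ∀ (T : Finset (Fin (2 * c + 3))) (t : {l : ℕ // l ∈ M} → ZMod 3), ∃ g : ℂ → ℂ,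
      Differentiable ℂ g ∧ g 1 ≠ 0 ∧ ∀ s : ℂ, 3 / 2 < s.re →
      HasProd (fun p : Nat.Primes => if (p : ℕ) ∣ B then 1 else
        (EF ((twN (E T) M (t + wt M (W T)) : ℕ) : ℤ) p s)⁻¹) (g s) := fun T t =>
    inc_L (hall (E T) (hE T) _).1 (hall (E T) (hE T) _).2 hB
  choose g hg1 hg2 hg3 using hg
  by_cases hk : ∃ k, k < N + 1 ∧ 2 * c + 1 + 2 * k = i
  · obtain ⟨k, hkN, hki⟩ := hk
    have hsub : Differentiable ℂ (fun s : ℂ => s - (c : ℂ) - (k : ℂ)) :=
      (differentiable_id.sub_const _).sub_const _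
    refine ⟨fun s => ∏ T ∈ (univ : Finset (Fin (2 * c + 3))).powersetCard c,
      ∏ t : {l : ℕ // l ∈ M} → ZMod 3, g T t (s - c - k) ^ mt C (rp (ρ k)) (toC w) t, ?_, ?_, ?_⟩
    · exact Differentiable.fun_finsetProd fun T _ => Differentiable.fun_finsetProd fun t _ =>
        ((hg1 T t).comp hsub).pow _
    · intro s hs
      have hre : 3 / 2 < (s - (c : ℂ) - (k : ℂ)).re := by
        rw [Complex.sub_re, Complex.sub_re, Complex.natCast_re, Complex.natCast_re]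
        have h1 : (i : ℝ) = 2 * c + 1 + 2 * k := by exact_mod_cast hki.symm
        rw [h1] at hs
        linarith
      have h1 : HasProd (fun p : Nat.Primes =>
          ∏ T ∈ (univ : Finset (Fin (2 * c + 3))).powersetCard c,
            ∏ t : {l : ℕ // l ∈ M} → ZMod 3, (if (p : ℕ) ∣ B then 1 else
              (EF ((twN (E T) M (t + wt M (W T)) : ℕ) : ℤ) p (s - c - k))⁻¹) ^
                mt C (rp (ρ k)) (toC w) t)
          (∏ T ∈ (univ : Finset (Fin (2 * c + 3))).powersetCard c,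
            ∏ t : {l : ℕ // l ∈ M} → ZMod 3, g T t (s - c - k) ^ mt C (rp (ρ k)) (toC w) t) :=
        hasProd_prod fun T _ => hasProd_prod fun t _ => (hg3 T t _ hre).pow _
      refine h1.congr_fun fun p => ?_
      by_cases hp : (p : ℕ) ∣ B
      · rw [if_pos hp]
        simp [hp]
      · rw [if_neg hp]
        simp only [if_neg hp]
        haveI := Fact.mk p.2
        have h2 : Aw (2 * c + 1) N ((p : ℕ) : ℂ) (eigs c a p fun δ => β p ((δ : ℤ) : ZMod p))
            (fun k => ev (ρ k (σ p)⁻¹)) i =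
            tns ((p : ℕ) : ℂ) (eigs c a p fun δ => β p ((δ : ℤ) : ZMod p)) (ev (ρ k (σ p)⁻¹)) k := by
          rw [Aw_odd _ _ _ hi, Finset.sum_eq_single k]
          · rw [if_pos hki]
          · intro k' _ hk'
            rw [if_neg (by omega)]
          · intro h
            exact absurd (Finset.mem_range.2 hkN) h
        rw [h2]
        have hp3 : (p : ℕ) ≠ 3 := by
          intro h
          apply hp
          rw [h]
          exact dvd_trans (Dvd.dvd.mul_right (dvd_mul_right 3 D) _) hBd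
        have hpM : (p : ℕ) ∉ M := by
          intro h
          apply hp
          exact dvd_trans (Dvd.dvd.mul_left (Finset.dvd_prod_of_mem (fun l : ℕ => l) h) _) hBd
        exact loc_fac C hM (ρ k) hp3 hpM (hv p) (hσ p) (hβ p hp)
          (fun j => fam_ndvd hBd ha p.2 hp j) hW hEW k s
    · refine Finset.prod_ne_zero_iff.2 fun T _ => Finset.prod_ne_zero_iff.2 fun t _ => ?_
      refine pow_ne_zero _ ?_
      have h1 : ((i : ℂ) + 1) / 2 - c - k = 1 := by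
        rw [← hki]
        push_cast
        ring
      rw [h1]
      exact hg2 T t
  · refine ⟨fun _ => 1, differentiable_const _, fun s _ => ?_, one_ne_zero⟩
    have h1 : HasProd (fun _ : Nat.Primes => (1 : ℂ)) 1 := hasProd_one
    refine h1.congr_fun fun p => ?_
    by_cases hp : (p : ℕ) ∣ B
    · rw [if_pos hp]
    · rw [if_neg hp, Aw_odd _ _ _ hi, Finset.sum_eq_zero]
      · simp
      · intro k hk'
        rw [if_neg]
        intro h
        exact hk ⟨k, Finset.mem_range.1 hk', h⟩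

/-- the groups of the points are finite -/
theorem fin_E (C : Ctx M z r) (hM : ∀ l ∈ M, l.Prime ∧ l % 9 = 1) {D : ℕ} (hC : Cl M D)
    (hA : ∀ t : {l : ℕ // l ∈ M} → ZMod 3, NoSplit (twN D M t)) {m : ℕ} {a : Fin m → ℤ}
    (ha : Fam M D a) (T : Finset (Fin m)) : Finite (ED ((Dt a T : ℤ) : F)).toAffine.Point := by
  have hD0 : D ≠ 0 := hC.1.ne_zero
  have hM' : ∀ l ∈ M, l.Prime := fun l hl => (hM l hl).1
  have hall : ∀ E : ℕ, (E = D ∨ E = D ^ 2) → AllG M E := by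
    rintro E (rfl | rfl)
    · exact allG_one hM hC hA
    · exact allG_two hM hC hA
  obtain ⟨E, w, y, hE, hw, hy, h1⟩ := fam_abs ha hD0 T
  obtain ⟨t, ht, h2⟩ := tw_K hM' C.hr hw hy h1
  have ht0 : t = 0 := funext fun l => ht l l.2
  subst ht0
  have e0 : twN E M 0 = E := by
    unfold twN
    simp
  rw [e0] at h2
  have hg := hall E hE 0
  rw [e0] at hg
  have hpre : Pre E M := by
    refine ⟨hM', fun l hl => (hM l hl).2, fun l hl h => ?_⟩
    have h3 : l ∣ D := by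
      rcases hE with rfl | rfl
      · exact h
      · exact (hM' l hl).dvd_of_dvd_pow h
    exact hC.2.2 l hl h3
  have h3 := all_goodK hg.1 hpre (fun s => (hall E hE s).2) z C.hz r C.hr C.hgen
  exact fin_K h2 hg.1.1.1 h3.2.1

/-- the number of the points of the diagonal cubic -/
theorem count_odd {p : ℕ} [hpf : Fact p.Prime] {β : ZMod p → ℂ} (hβ : IsBeta β) {c : ℕ}
    (hc : c ≤ 2) {a : Fin (2 * c + 3) → ℤ} (ha : ∀ i, ¬ (p : ℤ) ∣ a i) (L : Type) [Field L]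
    [Finite L] (n : ℕ) (hL : Nat.card L = p ^ n) :
    ((PC a L).ncard : ℂ) = ∑ j ∈ range (2 * c + 2), ((p : ℂ) ^ n) ^ j -
      ((eigs c a p fun δ => β ((δ : ℤ) : ZMod p)).map fun α => α ^ n).sum := by
  have h1 := frob hβ hc (a := a) (fun i => ne_of_ndvd (ha i))
  rw [ZMod.card] at h1
  have h2 := h1 L n hL
  have h3 := card_PC a L
  have h4 : (Pool.Agent.N883.DQ.solutions a L).ncard =
      Nat.card {x : Fin (2 * c + 3) → L // x ≠ 0 ∧ ∑ i, (a i : L) * x i ^ 3 = 0} := by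
    rw [← Nat.card_coe_set_eq]
    rfl
  have hq : 1 < Nat.card L := Finite.one_lt_card
  rw [h4, h3] at h2
  rw [Nat.cast_mul, Nat.cast_sub hq.le, Nat.cast_one] at h2
  have hq1 : ((Nat.card L : ℕ) : ℂ) - 1 ≠ 0 := by
    rw [sub_ne_zero]
    intro h
    have : Nat.card L = 1 := by exact_mod_cast h
    omega
  have h5 : (((Nat.card L : ℕ) : ℂ) - 1) * ((PC a L).ncard : ℂ) = ((Nat.card L : ℂ) - 1) *
      (∑ i ∈ Finset.range (2 * c + 1 + 1), (Nat.card L : ℂ) ^ i -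
        ((eigs c a p fun δ => β ((δ : ℤ) : ZMod p)).map fun α => α ^ n).sum) := by
    rw [← h2]
    ring
  have h6 := mul_left_cancel₀ hq1 h5
  rw [h6, hL]
  push_cast
  rfl

/-- the data at the primes -/
theorem exists_frb (hG : IsGalois ℚ F) {p : ℕ} (hp : p.Prime) :
    ∃ (v : HeightOneSpectrum (𝓞 F)) (σ : F ≃ₐ[ℚ] F), (p : 𝓞 F) ∈ v.asIdeal ∧
      IsArithFrobAt ℤ σ v.asIdeal ∧ ∀ x : 𝓞 F, σ • x - x ^ p ∈ v.asIdeal := by
  obtain ⟨v, hv⟩ := Pool.Agent.N842.EB.exists_place (F := F) hp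
  have hfin : Finite (𝓞 F ⧸ v.asIdeal) := Ideal.finiteQuotientOfFreeOfNeBot v.asIdeal v.ne_bot
  obtain ⟨σ, hσ⟩ := IsArithFrobAt.exists_of_isInvariant ℤ (F ≃ₐ[ℚ] F) v.asIdeal
  refine ⟨v, σ, hv, hσ, fun x => ?_⟩
  have h3 := hσ x
  rw [Pool.Agent.N842.EB.card_under hp hv] at h3
  exact h3

/-- the converse -/
lemma frb_pow {p : ℕ} (hp : p.Prime) {v : HeightOneSpectrum (𝓞 F)} (hv : (p : 𝓞 F) ∈ v.asIdeal)
    {σ : F ≃ₐ[ℚ] F} (hσ : IsArithFrobAt ℤ σ v.asIdeal) (x : 𝓞 F) :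
    σ • x - x ^ p ∈ v.asIdeal := by
  have h3 := hσ x
  rw [Pool.Agent.N842.EB.card_under hp hv] at h3
  exact h3

/-- the eigenvalues of the matrices have the absolute value one -/
lemma norm_rho {b : ℕ} (ρ : (F ≃ₐ[ℚ] F) →* Matrix (Fin b) (Fin b) ℂ) (σ : F ≃ₐ[ℚ] F) {x : ℂ}
    (hx : x ∈ ev (ρ σ)) : ‖x‖ = 1 := by
  refine norm_ev (N := Nat.card (F ≃ₐ[ℚ] F)) Nat.card_pos ?_ hx
  rw [← map_pow, pow_card_eq_one', map_one]

end Pool.Agent.V5helper41.BA
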