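import Mathlib
import Pool.Agent.N867.AS.Eig

/-!
# The eigenvalues of a matrix of finite order
-/

set_option autoImplicit false

open Polynomial

namespace Pool.Agent.V5helper41.BA

variable {n : Type} [Fintype n] [DecidableEq n]

/-- the multiset of the eigenvalues -/
noncomputable def ev (M : Matrix n n ℂ) : Multiset ℂ := M.charpoly.roots

lemma card_ev (M : Matrix n n ℂ) : (ev M).card = Fintype.card n := by
  unfold ev
  rw [Pool.Agent.N867.AS.Eig.card_roots']

lemma trace_ev (M : Matrix n n ℂ) (r : ℕ) :
    (M ^ r).trace = ((ev M).map fun β => β ^ r).sum :=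
  Pool.Agent.N867.AS.Eig.trace_pow M r

lemma det_one_sub (M : Matrix n n ℂ) (c : ℂ) :
    (1 - c • M).det = ((ev M).map fun β => 1 - c * β).prod := by
  by_cases hc : c = 0
  · subst hc
    simp
  · have h1 : (1 - c • M) = -(c • (aeval M (X - C c⁻¹) : Matrix n n ℂ)) := by
      rw [map_sub, aeval_X, aeval_C, smul_sub, Algebra.algebraMap_eq_smul_one, smul_smul,
        mul_inv_cancel₀ hc, one_smul]
      abel
    rw [h1, Matrix.det_neg, Matrix.det_smul, Pool.Agent.N867.AS.Eig.det_monic M _
      (monic_X_sub_C _)]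
    have h2 : ∀ s : Multiset ℂ, (-1) ^ s.card * (c ^ s.card *
        (s.map fun l => (X - C c⁻¹ : ℂ[X]).eval l).prod) = (s.map fun β => 1 - c * β).prod := by
      intro s
      induction s using Multiset.induction_on with
      | empty => simp
      | cons a s ih =>
        rw [Multiset.card_cons, Multiset.map_cons, Multiset.map_cons, Multiset.prod_cons,
          Multiset.prod_cons, ← ih, eval_sub, eval_X, eval_C]
        field_simp
        ring
    have h3 := h2 (ev M)
    rw [card_ev] at h3
    exact h3

/-- the determinant of the quadratic polynomial -/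
theorem det_quad (M : Matrix n n ℂ) (b b' x : ℂ) :
    (1 - ((b + b') * x) • M + (b * b' * x ^ 2) • (M * M)).det =
      ((ev M).map fun β => (1 - b * β * x) * (1 - b' * β * x)).prod := by
  have h1 : 1 - ((b + b') * x) • M + (b * b' * x ^ 2) • (M * M) =
      (1 - (b * x) • M) * (1 - (b' * x) • M) := by
    have e0 : ∀ A B : Matrix n n ℂ, (1 - A) * (1 - B) = 1 - (A + B) + A * B := by
      intro A B
      noncomm_ring
    have e1 : ((b + b') * x) • M = (b * x) • M + (b' * x) • M := by
      rw [← add_smul]
      ring_nf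
    have e2 : b * b' * x ^ 2 = b * x * (b' * x) := by ring
    rw [e0, smul_mul_smul_comm, e1, e2]
  rw [h1, Matrix.det_mul, det_one_sub, det_one_sub, ← Multiset.prod_map_mul]
  congr 1
  refine Multiset.map_congr rfl fun β _ => ?_
  ring

/-- the eigenvalues of a matrix of finite order have the absolute value one -/
theorem norm_ev {M : Matrix n n ℂ} {N : ℕ} (hN : 0 < N) (h : M ^ N = 1) {β : ℂ}
    (hβ : β ∈ ev M) : ‖β‖ = 1 := by
  have h1 : M.charpoly.IsRoot β := (mem_roots'.1 hβ).2
  have hdet : (Matrix.scalar n β - M).det = 0 := by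
    rw [← Matrix.eval_charpoly]
    exact h1
  obtain ⟨v, hv0, hv⟩ := Matrix.exists_mulVec_eq_zero_iff.mpr hdet
  have hM : M.mulVec v = β • v := by
    rw [Matrix.sub_mulVec, sub_eq_zero] at hv
    rw [← hv]
    funext j
    simp [Matrix.mulVec, dotProduct, Matrix.scalar_apply, Matrix.diagonal_apply]
  have hpow : ∀ k : ℕ, (M ^ k).mulVec v = β ^ k • v := by
    intro k
    induction k with
    | zero => simp
    | succ k ih =>
      rw [pow_succ, ← Matrix.mulVec_mulVec, hM, Matrix.mulVec_smul, ih, smul_smul, pow_succ,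
        mul_comm]
  have h2 := hpow N
  rw [h, Matrix.one_mulVec] at h2
  have h3 : β ^ N = 1 := by
    by_contra hne
    apply hv0
    have h4 : (β ^ N - 1) • v = 0 := by
      rw [sub_smul, one_smul, ← h2, sub_self]
    exact (smul_eq_zero.1 h4).resolve_left (sub_ne_zero.2 hne)
  have h5 : ‖β‖ ^ N = 1 := by rw [← norm_pow, h3, norm_one]
  exact (pow_eq_one_iff_of_nonneg (norm_nonneg β) hN.ne').1 h5

end Pool.Agent.V5helper41.BA
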