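import Mathlib

/-!
# The eigenvalues of the Frobenius on the cohomology of a product
-/

set_option autoImplicit false

open Finset

namespace Pool.Agent.V5helper41.BA

/-- the products of the eigenvalues -/
noncomputable def tns (q : ℂ) (E R : Multiset ℂ) (k : ℕ) : Multiset ℂ :=
  E.bind fun γ => R.map fun β => γ * (q ^ k * β)

/-- the eigenvalues on `H ^ i` of the product of a variety with the cohomology `ℚ(-j)`, `j ≤ n`, and
`E` in the degree `n`, and of a variety with the cohomology `R k (-k)` in the degree `2 k` -/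
noncomputable def Aw (n N : ℕ) (q : ℂ) (E : Multiset ℂ) (R : ℕ → Multiset ℂ) (i : ℕ) :
    Multiset ℂ :=
  (∑ k ∈ range (N + 1), if n + 2 * k = i then tns q E (R k) k else 0) +
    ∑ j ∈ range (n + 1), ∑ k ∈ range (N + 1),
      if 2 * (j + k) = i then (R k).map (fun β => q ^ (j + k) * β) else 0

lemma tns_pow (q : ℂ) (E R : Multiset ℂ) (k r : ℕ) :
    ((tns q E R k).map fun α => α ^ r).sum =
      (E.map fun γ => γ ^ r).sum * ((R.map fun β => β ^ r).sum * (q ^ r) ^ k) := by
  unfold tns
  rw [Multiset.map_bind, Multiset.sum_bind]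
  have h : ∀ γ : ℂ, ((R.map fun β => γ * (q ^ k * β)).map fun α => α ^ r).sum =
      γ ^ r * ((R.map fun β => β ^ r).sum * (q ^ r) ^ k) := by
    intro γ
    rw [Multiset.map_map, ← Multiset.sum_map_mul_right, ← Multiset.sum_map_mul_left]
    refine congrArg Multiset.sum (Multiset.map_congr rfl fun β _ => ?_)
    simp only [Function.comp_apply]
    rw [mul_pow, mul_pow, ← pow_mul, ← pow_mul, mul_comm k r]
    ring
  rw [Multiset.map_congr rfl fun γ _ => h γ, Multiset.sum_map_mul_right]

lemma map_sum' {ι : Type} (s : Finset ι) (f : ι → Multiset ℂ) (g : ℂ → ℂ) :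
    (Multiset.map g (∑ i ∈ s, f i)).sum = ∑ i ∈ s, ((f i).map g).sum := by
  classical
  induction s using Finset.induction_on with
  | empty => simp
  | insert a s ha ih => rw [Finset.sum_insert ha, Finset.sum_insert ha, Multiset.map_add,
      Multiset.sum_add, ih]

lemma Aw_pow (n N : ℕ) (q : ℂ) (E : Multiset ℂ) (R : ℕ → Multiset ℂ) (i r : ℕ) :
    ((Aw n N q E R i).map fun α => α ^ r).sum =
      (∑ k ∈ range (N + 1), if n + 2 * k = i then
        (E.map fun γ => γ ^ r).sum * (((R k).map fun β => β ^ r).sum * (q ^ r) ^ k) else 0) +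
      ∑ j ∈ range (n + 1), ∑ k ∈ range (N + 1), if 2 * (j + k) = i then
        (q ^ r) ^ j * (((R k).map fun β => β ^ r).sum * (q ^ r) ^ k) else 0 := by
  unfold Aw
  rw [Multiset.map_add, Multiset.sum_add, map_sum', map_sum']
  congr 1
  · refine Finset.sum_congr rfl fun k _ => ?_
    split_ifs
    · exact tns_pow q E (R k) k r
    · simp
  · refine Finset.sum_congr rfl fun j _ => ?_
    rw [map_sum']
    refine Finset.sum_congr rfl fun k _ => ?_
    split_ifs
    · rw [Multiset.map_map, ← Multiset.sum_map_mul_right, ← Multiset.sum_map_mul_left]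
      refine congrArg Multiset.sum (Multiset.map_congr rfl fun β _ => ?_)
      simp only [Function.comp_apply]
      rw [mul_pow, ← pow_mul, ← pow_mul, ← pow_mul]
      ring
    · simp

/-- **The number of the points.** -/
theorem Aw_count {n N M : ℕ} (hn : Odd n) (hM : n ≤ M) (q : ℂ) (E : Multiset ℂ)
    (R : ℕ → Multiset ℂ) (r : ℕ) :
    ∑ i ∈ range (2 * (M + N) + 1), (-1) ^ i * ((Aw n N q E R i).map fun α => α ^ r).sum =
      ((∑ j ∈ range (n + 1), (q ^ r) ^ j) - (E.map fun γ => γ ^ r).sum) *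
        ∑ k ∈ range (N + 1), ((R k).map fun β => β ^ r).sum * (q ^ r) ^ k := by
  have h1 : ∑ i ∈ range (2 * (M + N) + 1), ∑ k ∈ range (N + 1), (-1 : ℂ) ^ i *
      (if n + 2 * k = i then
        (E.map fun γ => γ ^ r).sum * (((R k).map fun β => β ^ r).sum * (q ^ r) ^ k) else 0) =
      -∑ k ∈ range (N + 1), (E.map fun γ => γ ^ r).sum *
        (((R k).map fun β => β ^ r).sum * (q ^ r) ^ k) := by
    rw [Finset.sum_comm, ← Finset.sum_neg_distrib]
    refine Finset.sum_congr rfl fun k hk => ?_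
    rw [Finset.sum_eq_single (n + 2 * k)]
    · rw [if_pos rfl, Odd.neg_one_pow (hn.add_even (even_two_mul k))]
      ring
    · intro i _ hi
      rw [if_neg (fun h => hi h.symm), mul_zero]
    · intro h
      exfalso
      apply h
      have := Finset.mem_range.1 hk
      rw [Finset.mem_range]
      omega
  have h2 : ∑ i ∈ range (2 * (M + N) + 1), ∑ j ∈ range (n + 1), ∑ k ∈ range (N + 1),
      (-1 : ℂ) ^ i * (if 2 * (j + k) = i then
        (q ^ r) ^ j * (((R k).map fun β => β ^ r).sum * (q ^ r) ^ k) else 0) =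
      ∑ j ∈ range (n + 1), ∑ k ∈ range (N + 1),
        (q ^ r) ^ j * (((R k).map fun β => β ^ r).sum * (q ^ r) ^ k) := by
    rw [Finset.sum_comm]
    refine Finset.sum_congr rfl fun j hj => ?_
    rw [Finset.sum_comm]
    refine Finset.sum_congr rfl fun k hk => ?_
    rw [Finset.sum_eq_single (2 * (j + k))]
    · rw [if_pos rfl, Even.neg_one_pow (even_two_mul _), one_mul]
    · intro i _ hi
      rw [if_neg (fun h => hi h.symm), mul_zero]
    · intro h
      exfalso
      apply h
      have h3 := Finset.mem_range.1 hk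
      have h4 := Finset.mem_range.1 hj
      rw [Finset.mem_range]
      omega
  have h0 : ∑ i ∈ range (2 * (M + N) + 1), (-1) ^ i * ((Aw n N q E R i).map fun α => α ^ r).sum =
      (∑ i ∈ range (2 * (M + N) + 1), ∑ k ∈ range (N + 1), (-1 : ℂ) ^ i *
        (if n + 2 * k = i then
          (E.map fun γ => γ ^ r).sum * (((R k).map fun β => β ^ r).sum * (q ^ r) ^ k) else 0)) +
      ∑ i ∈ range (2 * (M + N) + 1), ∑ j ∈ range (n + 1), ∑ k ∈ range (N + 1),
        (-1 : ℂ) ^ i * (if 2 * (j + k) = i then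
          (q ^ r) ^ j * (((R k).map fun β => β ^ r).sum * (q ^ r) ^ k) else 0) := by
    rw [← Finset.sum_add_distrib]
    refine Finset.sum_congr rfl fun i _ => ?_
    rw [Aw_pow, mul_add, Finset.mul_sum, Finset.mul_sum]
    congr 1
    refine Finset.sum_congr rfl fun j _ => ?_
    rw [Finset.mul_sum]
  rw [h0, h1, h2, sub_mul, Finset.sum_mul_sum, Finset.mul_sum]
  ring

lemma mem_sum' {ι : Type} {s : Finset ι} {f : ι → Multiset ℂ} {x : ℂ} (h : x ∈ ∑ i ∈ s, f i) :
    ∃ i ∈ s, x ∈ f i := by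
  classical
  exact Multiset.mem_sum.1 h

/-- **The weights.** -/
theorem Aw_weight {n N : ℕ} {p : ℕ} {E : Multiset ℂ} {R : ℕ → Multiset ℂ}
    (hE : ∀ γ ∈ E, ‖γ‖ ^ 2 = (p : ℝ) ^ n) (hR : ∀ k, ∀ β ∈ R k, ‖β‖ = 1) (i : ℕ) {α : ℂ}
    (hα : α ∈ Aw n N p E R i) : ‖α‖ ^ 2 = (p : ℝ) ^ i := by
  unfold Aw at hα
  rcases Multiset.mem_add.1 hα with h | h
  · obtain ⟨k, -, h1⟩ := mem_sum' h
    split_ifs at h1 with h2
    · unfold tns at h1
      obtain ⟨γ, hγ, h3⟩ := Multiset.mem_bind.1 h1
      obtain ⟨β, hβ, rfl⟩ := Multiset.mem_map.1 h3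
      rw [norm_mul, norm_mul, norm_pow, Complex.norm_natCast, hR k β hβ, mul_one, mul_pow,
        hE γ hγ, ← h2, pow_add]
      ring
    · exact absurd h1 (Multiset.notMem_zero α)
  · obtain ⟨j, -, h1⟩ := mem_sum' h
    obtain ⟨k, -, h2⟩ := mem_sum' h1
    split_ifs at h2 with h3
    · obtain ⟨β, hβ, rfl⟩ := Multiset.mem_map.1 h2
      rw [norm_mul, norm_pow, Complex.norm_natCast, hR k β hβ, mul_one, ← h3]
      ring
    · exact absurd h2 (Multiset.notMem_zero α)

/-- the odd degrees -/
theorem Aw_odd {n N : ℕ} (q : ℂ) (E : Multiset ℂ) (R : ℕ → Multiset ℂ) {i : ℕ} (hi : Odd i) :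
    Aw n N q E R i = ∑ k ∈ range (N + 1), if n + 2 * k = i then tns q E (R k) k else 0 := by
  unfold Aw
  have h : ∑ j ∈ range (n + 1), ∑ k ∈ range (N + 1),
      (if 2 * (j + k) = i then (R k).map (fun β => q ^ (j + k) * β) else 0) =
      (0 : Multiset ℂ) := by
    refine Finset.sum_eq_zero fun j _ => Finset.sum_eq_zero fun k _ => ?_
    rw [if_neg]
    intro h
    obtain ⟨m, hm⟩ := hi
    omega
  rw [h, add_zero]

lemma Aw_card (n N : ℕ) (q : ℂ) (E : Multiset ℂ) (R : ℕ → Multiset ℂ) (i : ℕ) :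
    (Aw n N q E R i).card = (∑ k ∈ range (N + 1), if n + 2 * k = i then E.card * (R k).card else 0) +
      ∑ j ∈ range (n + 1), ∑ k ∈ range (N + 1), if 2 * (j + k) = i then (R k).card else 0 := by
  unfold Aw
  have h0 : ∀ {ι : Type} (s : Finset ι) (f : ι → Multiset ℂ),
      (∑ i ∈ s, f i).card = ∑ i ∈ s, (f i).card := fun s f => Multiset.card_sum s f
  rw [Multiset.card_add, h0, h0]
  congr 1
  · refine Finset.sum_congr rfl fun k _ => ?_
    split_ifs
    · unfold tns
      rw [Multiset.card_bind]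
      simp only [Function.comp_def, Multiset.card_map, Multiset.map_const', Multiset.sum_replicate,
        smul_eq_mul]
    · rfl
  · refine Finset.sum_congr rfl fun j _ => ?_
    rw [h0]
    refine Finset.sum_congr rfl fun k _ => ?_
    split_ifs
    · rw [Multiset.card_map]
    · rfl

lemma Aw_top {n N M : ℕ} (hM : n ≤ M) (q : ℂ) (E : Multiset ℂ) (R : ℕ → Multiset ℂ) {i : ℕ}
    (hi : 2 * (M + N) < i) : Aw n N q E R i = 0 := by
  unfold Aw
  rw [Finset.sum_eq_zero, Finset.sum_eq_zero, add_zero]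
  · intro j hj
    refine Finset.sum_eq_zero fun k hk => ?_
    rw [if_neg]
    have h3 := Finset.mem_range.1 hk
    have h4 := Finset.mem_range.1 hj
    omega
  · intro k hk
    rw [if_neg]
    have h3 := Finset.mem_range.1 hk
    omega

/-- the Euler factor -/
theorem tns_prod (q x : ℂ) (E R : Multiset ℂ) (k : ℕ) :
    ((tns q E R k).map fun α => (1 - α * x)⁻¹).prod =
      (E.map fun γ => (R.map fun β => (1 - γ * β * (q ^ k * x))⁻¹).prod).prod := by
  unfold tns
  rw [Multiset.map_bind, Multiset.prod_bind]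
  refine congrArg Multiset.prod (Multiset.map_congr rfl fun γ _ => ?_)
  rw [Multiset.map_map]
  refine congrArg Multiset.prod (Multiset.map_congr rfl fun β _ => ?_)
  simp only [Function.comp_apply]
  congr 2
  ring

end Pool.Agent.V5helper41.BA
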