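import Pool.Agent.N842.EB.Loc2
import Pool.Agent.N883.DQ.Loc
import Pool.Agent.V5helper41.BA.Lin
import Pool.Agent.V5helper41.BA.Mul

/-!
# The local factors
-/

set_option autoImplicit false
set_option linter.unusedSectionVars false
set_option linter.unusedVariables false

open NumberField IsDedekindDomain

namespace Pool.Agent.V5helper41.BA

open scoped Classical
open Pool.Agent.Y692.QS (Ei w nr toC)
open Pool.Agent.Y703.CT (WD)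
open Pool.Agent.W97.MT (ap)
open Pool.Agent.Y696.CT (dvd_delta cpow_two aff_eq)
open Pool.Agent.N842.EB (EF EF_bad local_id Ctx twD mt Inv inv_top prime_uniq)
open Pool.Agent.N883.DQ (IsBeta exists_beta)

section beta
variable {p : ℕ} [hpf : Fact p.Prime] {β : ZMod p → ℂ}

lemma ne_of_ndvd {δ : ℤ} (hδ : ¬ (p : ℤ) ∣ δ) : (δ : ZMod p) ≠ 0 := by
  rwa [Ne, ZMod.intCast_zmod_eq_zero_iff_dvd]

lemma ap_beta (hβ : IsBeta β) {δ : ℤ} (hδ : ¬ (p : ℤ) ∣ δ) :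
    (ap (WD δ) p : ℂ) = β δ + (starRingEnd ℂ) (β δ) := by
  unfold Pool.Agent.W97.MT.ap
  have h1 := (hβ.2.1 (δ : ZMod p) (ne_of_ndvd hδ)).2
  rw [aff_eq]
  rw [ZMod.card] at h1
  push_cast
  rw [h1]
  ring

lemma beta_mul (hβ : IsBeta β) {δ : ℤ} (hδ : ¬ (p : ℤ) ∣ δ) :
    β δ * (starRingEnd ℂ) (β δ) = p := by
  have h1 := (hβ.2.1 (δ : ZMod p) (ne_of_ndvd hδ)).1
  rwa [ZMod.card] at h1

lemma EF_beta (hp3 : p ≠ 3) (hβ : IsBeta β) {δ : ℤ} (hδ : ¬ (p : ℤ) ∣ δ) (s : ℂ) :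
    EF δ p s = (1 - β δ * (p : ℂ) ^ (-s)) * (1 - (starRingEnd ℂ) (β δ) * (p : ℂ) ^ (-s)) := by
  unfold EF
  rw [if_neg, ap_beta hβ hδ, cpow_two hpf.out]
  · linear_combination (-(p : ℂ) ^ (-s) * (p : ℂ) ^ (-s)) * beta_mul hβ hδ
  · rw [dvd_delta hpf.out, not_or]
    exact ⟨hp3, hδ⟩

/-- the Euler factor does not change under the multiplication with cubes -/
lemma EF_cube (hp3 : p ≠ 3) (hβ : IsBeta β) {δ u : ℤ} (hδ : ¬ (p : ℤ) ∣ δ) (hu : ¬ (p : ℤ) ∣ u)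
    (s : ℂ) : EF (δ * u ^ 3) p s = EF δ p s := by
  have hpp : Prime (p : ℤ) := Nat.prime_iff_prime_int.1 hpf.out
  have h1 : ¬ (p : ℤ) ∣ δ * u ^ 3 := by
    intro h
    rcases hpp.dvd_or_dvd h with h | h
    · exact hδ h
    · exact hu (hpp.dvd_of_dvd_pow h)
  rw [EF_beta hp3 hβ h1, EF_beta hp3 hβ hδ]
  have h2 : β ((δ * u ^ 3 : ℤ) : ZMod p) = β (δ : ZMod p) := by
    push_cast
    exact hβ.1 _ _ (ne_of_ndvd hu)
  rw [h2]

end beta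

lemma exists_b {p : ℕ} [hpf : Fact p.Prime] (hp3 : p ≠ 3) : ∃ β : ZMod p → ℂ, IsBeta β := by
  refine exists_beta (ZMod p) ?_
  intro h
  have h1 : ((3 : ℕ) : ZMod p) = 0 := by exact_mod_cast h
  rw [ZMod.natCast_eq_zero_iff] at h1
  exact hp3 ((Nat.prime_dvd_prime_iff_eq hpf.out Nat.prime_three).1 h1)

/-- the Euler factors are not zero -/
lemma EF_ne {N : ℕ} {p : ℕ} (hp : p.Prime) {s : ℂ} (hs : 1 / 2 < s.re) : EF (N : ℤ) p s ≠ 0 := by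
  haveI := Fact.mk hp
  by_cases h3 : p = 3
  · rw [EF_bad hp (Or.inl h3)]
    exact one_ne_zero
  by_cases hN : (p : ℤ) ∣ (N : ℤ)
  · rw [EF_bad hp (Or.inr hN)]
    exact one_ne_zero
  obtain ⟨β, hβ⟩ := exists_b (p := p) h3
  rw [EF_beta h3 hβ hN]
  have hb := beta_mul hβ hN
  set x := β (((N : ℕ) : ℤ) : ZMod p) with hx
  have hp1 : (1 : ℝ) < (p : ℝ) := by exact_mod_cast hp.one_lt
  have hp0 : (0 : ℝ) < (p : ℝ) := by linarith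
  have hnx : ‖x‖ = (p : ℝ) ^ (1 / 2 : ℝ) := by
    have h1 : ‖x‖ ^ 2 = (p : ℝ) := by
      rw [Complex.sq_norm]
      rw [Complex.mul_conj] at hb
      exact_mod_cast hb
    rw [← Real.sqrt_eq_rpow, ← h1, Real.sqrt_sq (norm_nonneg x)]
  have hX : ‖(p : ℂ) ^ (-s)‖ = (p : ℝ) ^ (-s.re) := by
    have h2 : (p : ℂ) = ((p : ℝ) : ℂ) := by push_cast; rfl
    rw [h2, Complex.norm_cpow_eq_rpow_re_of_pos hp0, Complex.neg_re]
  have key : ∀ y : ℂ, ‖y‖ = (p : ℝ) ^ (1 / 2 : ℝ) → 1 - y * (p : ℂ) ^ (-s) ≠ 0 := by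
    intro y hy h0
    have h1 : y * (p : ℂ) ^ (-s) = 1 := by linear_combination -h0
    have h5 := congrArg norm h1
    rw [norm_mul, hy, hX, ← Real.rpow_add hp0, norm_one] at h5
    have h6 := Real.rpow_lt_one_of_one_lt_of_neg hp1 (z := 1 / 2 + -s.re) (by linarith)
    linarith
  exact mul_ne_zero (key _ hnx) (key _ (by rw [RCLike.norm_conj]; exact hnx))

lemma EF_diff (N : ℤ) {p : ℕ} (hp : p.Prime) : Differentiable ℂ (EF N p) := by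
  have h0 : (p : ℂ) ≠ 0 := by exact_mod_cast hp.ne_zero
  have h2 : Differentiable ℂ (fun s : ℂ => (p : ℂ) ^ (-s)) := by
    intro s
    exact DifferentiableAt.const_cpow (by fun_prop) (Or.inl h0)
  have h3 : Differentiable ℂ (fun s : ℂ => (p : ℂ) ^ (1 - 2 * s)) := by
    intro s
    exact DifferentiableAt.const_cpow (by fun_prop) (Or.inl h0)
  unfold EF
  split_ifs
  · exact ((differentiable_const _).sub ((differentiable_const _).mul h2)).add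
      (differentiable_const _)
  · exact ((differentiable_const _).sub ((differentiable_const _).mul h2)).add h3

section rep
variable {F : Type} [Field F] [NumberField F] {S : Finset ℕ} {z : F} {r : ℕ → F}

/-- the representation on the column vectors -/
noncomputable def rp {b : ℕ} (ρ : (F ≃ₐ[ℚ] F) →* Matrix (Fin b) (Fin b) ℂ) :
    Representation ℂ (F ≃ₐ[ℚ] F) (Fin b → ℂ) :=
  ((Matrix.toLinAlgEquiv' : Matrix (Fin b) (Fin b) ℂ ≃ₐ[ℂ] ((Fin b → ℂ) →ₗ[ℂ] (Fin b → ℂ))) :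
    Matrix (Fin b) (Fin b) ℂ →* ((Fin b → ℂ) →ₗ[ℂ] (Fin b → ℂ))).comp ρ

lemma rp_apply {b : ℕ} (ρ : (F ≃ₐ[ℚ] F) →* Matrix (Fin b) (Fin b) ℂ) (g : F ≃ₐ[ℚ] F) :
    rp ρ g = Matrix.toLin' (ρ g) := rfl

/-- the local identity for matrices -/
lemma mat_id (C : Ctx S z r) (hS : ∀ l ∈ S, l.Prime ∧ l % 9 = 1) {b : ℕ}
    (ρ : (F ≃ₐ[ℚ] F) →* Matrix (Fin b) (Fin b) ℂ) {D p : ℕ} (hp : p.Prime) (hp3 : p ≠ 3)
    (hpS : p ∉ S) (hpD : ¬ p ∣ D) {v : HeightOneSpectrum (𝓞 F)} (hv : (p : 𝓞 F) ∈ v.asIdeal)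
    {σ : F ≃ₐ[ℚ] F} (hσ : ∀ x : 𝓞 F, σ • x - x ^ p ∈ v.asIdeal) (s : ℂ) :
    (1 - ((ap (WD (D : ℤ)) p : ℂ) * (p : ℂ) ^ (-s)) • ρ σ⁻¹ +
      ((p : ℂ) ^ (1 - 2 * s)) • (ρ σ⁻¹ * ρ σ⁻¹)).det =
      ∏ t : {l : ℕ // l ∈ S} → ZMod 3, EF ((twD D S t : ℕ) : ℤ) p s ^ mt C (rp ρ) (toC w) t := by
  have h3 : ((3 : ℕ) : 𝓞 F) ∉ v.asIdeal := fun h => hp3 (prime_uniq hp Nat.prime_three hv h)
  have hS' : ∀ l : {l : ℕ // l ∈ S}, ((l.1 : ℕ) : 𝓞 F) ∉ v.asIdeal := fun l h =>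
    hpS (by rw [prime_uniq hp (hS l.1 l.2).1 hv h]; exact l.2)
  have htop : Inv (rp ρ) v = ⊤ := by
    rw [eq_top_iff]
    intro u _
    exact inv_top C (rp ρ) h3 hS' u
  let e : Inv (rp ρ) v ≃ₗ[ℂ] (Fin b → ℂ) := LinearEquiv.ofTop _ htop
  let f : (Fin b → ℂ) →ₗ[ℂ] (Fin b → ℂ) := Matrix.toLin' (ρ σ⁻¹)
  let B : Inv (rp ρ) v →ₗ[ℂ] Inv (rp ρ) v := e.symm.toLinearMap ∘ₗ f ∘ₗ e.toLinearMap
  have he : ∀ u, e u = (u : Fin b → ℂ) := fun u => rfl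
  have he' : ∀ u, ((e.symm u : Inv (rp ρ) v) : Fin b → ℂ) = u := fun u => rfl
  have hB : ∀ u, (B u : Fin b → ℂ) = rp ρ σ⁻¹ (u : Fin b → ℂ) := fun u => rfl
  rw [← local_id C hS (rp ρ) hp hp3 hpD hv hσ B hB s]
  have h5 : (1 : Inv (rp ρ) v →ₗ[ℂ] Inv (rp ρ) v) - ((ap (WD (D : ℤ)) p : ℂ) * (p : ℂ) ^ (-s)) • B +
      ((p : ℂ) ^ (1 - 2 * s)) • (B * B) = e.symm.toLinearMap ∘ₗ
        (1 - ((ap (WD (D : ℤ)) p : ℂ) * (p : ℂ) ^ (-s)) • f +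
          ((p : ℂ) ^ (1 - 2 * s)) • (f * f)) ∘ₗ (e.symm.symm).toLinearMap := by
    refine LinearMap.ext fun u => Subtype.ext ?_
    rfl
  rw [h5, LinearMap.det_conj, ← LinearMap.det_toLin']
  congr 1
  rw [map_add, map_sub, map_smul, map_smul, Matrix.toLin'_one, Matrix.toLin'_mul]
  rfl

end rep

end Pool.Agent.V5helper41.BA
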