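import Pool.Agent.N842.EB.Fin
import Pool.Agent.N883.DQ.Fin
import Pool.Agent.V5helper41.BA.Loc
import Pool.Agent.V5helper41.BA.Cnt

/-!
# The `L`-functions of the products in the odd degrees
-/

set_option autoImplicit false
set_option linter.unusedSectionVars false
set_option linter.unusedVariables false

open NumberField IsDedekindDomain

namespace Pool.Agent.V5helper41.BA

open scoped Classical
open Finset
open Pool.Agent.Y692.QS (Ei w nr toC)
open Pool.Agent.Y703.CT (WD Cls NoSplit Base IsL)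
open Pool.Agent.W97.MT (ap)
open Pool.Agent.Y696.CT (dvd_delta cpow_two aff_eq)
open Pool.Agent.N842.EB (EF EF_bad local_id Ctx twD mt Inv inv_top prime_uniq lf_ns)
open Pool.Agent.N883.DQ (IsBeta exists_beta eigs eigs_card eigs_mem frob Dt Fam fam_abs Smo smo_eq
  AllG allG_one allG_two IsTwK tw_K fin_K sq_of)
open Pool.Agent.R432.JG (Cl AG Pre twN tw_cls pre_of all_goodK)
open Pool.Agent.R432.C (ED)

/-- the `L`-function without the factors at the primes dividing `B` -/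
theorem inc_L {N : ℕ} (hC : Cls N) (hN : NoSplit N) {B : ℕ} (hB : B ≠ 0) :
    ∃ g : ℂ → ℂ, Differentiable ℂ g ∧ g 1 ≠ 0 ∧ ∀ s : ℂ, 3 / 2 < s.re →
      HasProd (fun p : Nat.Primes => if (p : ℕ) ∣ B then 1 else (EF (N : ℤ) p s)⁻¹) (g s) := by
  obtain ⟨f, hf, hf1⟩ := lf_ns hC hN
  have hfin : {p : Nat.Primes | (p : ℕ) ∣ B}.Finite := by
    refine Set.Finite.of_finite_image (f := fun p : Nat.Primes => (p : ℕ)) ?_
      (fun p _ q _ h => Subtype.ext h)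
    refine (Nat.divisors B).finite_toSet.subset ?_
    rintro _ ⟨p, hp, rfl⟩
    exact Finset.mem_coe.2 (Nat.mem_divisors.2 ⟨hp, hB⟩)
  refine ⟨fun s => f s * ∏ p ∈ hfin.toFinset, EF (N : ℤ) p s,
    hf.1.mul (Differentiable.fun_finsetProd fun p _ => EF_diff N p.2),
    mul_ne_zero hf1 (Finset.prod_ne_zero_iff.2 fun p _ => EF_ne p.2 (by norm_num)),
    fun s hs => ?_⟩
  have h1 := hf.2 s hs
  have h2 : HasProd (fun p : Nat.Primes => if (p : ℕ) ∣ B then EF (N : ℤ) p s else 1)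
      (∏ p ∈ hfin.toFinset, EF (N : ℤ) p s) := by
    have h3 : HasProd (fun p : Nat.Primes => if (p : ℕ) ∣ B then EF (N : ℤ) p s else 1)
        (∏ p ∈ hfin.toFinset, if (p : ℕ) ∣ B then EF (N : ℤ) p s else 1) := by
      refine hasProd_prod_of_ne_finset_one fun p hp => ?_
      rw [if_neg]
      intro h
      exact hp (hfin.mem_toFinset.2 h)
    have h4 : (∏ p ∈ hfin.toFinset, if (p : ℕ) ∣ B then EF (N : ℤ) p s else 1) =
        ∏ p ∈ hfin.toFinset, EF (N : ℤ) p s :=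
      Finset.prod_congr rfl fun p hp => if_pos (hfin.mem_toFinset.1 hp)
    rwa [h4] at h3
  refine (h1.mul h2).congr_fun fun p => ?_
  by_cases hp : (p : ℕ) ∣ B
  · rw [if_pos hp, if_pos hp]
    exact (inv_mul_cancel₀ (EF_ne p.2 (by linarith))).symm
  · rw [if_neg hp, if_neg hp, mul_one]
    rfl

section loc
variable {M : Finset ℕ} {F : Type} [Field F] [NumberField F] {z : F} {r : ℕ → F}

/-- the exponents -/
noncomputable def wt (M : Finset ℕ) (w : ℕ) : {l : ℕ // l ∈ M} → ZMod 3 :=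
  fun l => (w.factorization l.1 : ZMod 3)

lemma tw_eq {E w y : ℕ} (hw : Smo M w) (t : {l : ℕ // l ∈ M} → ZMod 3) :
    ∃ u : ℕ, twD (E * w * y ^ 3) M t = twN E M (t + wt M w) * u ^ 3 := by
  refine ⟨(∏ l : {l : ℕ // l ∈ M}, l.1 ^ (((t l).val + w.factorization l.1) / 3)) * y, ?_⟩
  have h1 : ∀ l : {l : ℕ // l ∈ M}, l.1 ^ w.factorization l.1 * l.1 ^ (t l).val =
      l.1 ^ ((t + wt M w) l).val * (l.1 ^ (((t l).val + w.factorization l.1) / 3)) ^ 3 := by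
    intro l
    have h2 : ((t + wt M w) l).val = ((t l).val + w.factorization l.1) % 3 := by
      rw [Pi.add_apply, ZMod.val_add]
      unfold wt
      rw [ZMod.val_natCast]
      omega
    rw [h2, ← pow_mul, ← pow_add, ← pow_add]
    congr 1
    omega
  unfold twD twN
  have h3 : w * ∏ l : {l : ℕ // l ∈ M}, l.1 ^ (t l).val =
      (∏ l : {l : ℕ // l ∈ M}, l.1 ^ ((t + wt M w) l).val) *
        (∏ l : {l : ℕ // l ∈ M}, l.1 ^ (((t l).val + w.factorization l.1) / 3)) ^ 3 := by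
    conv_lhs => rw [smo_eq hw]
    rw [← Finset.prod_mul_distrib, ← Finset.prod_pow, ← Finset.prod_mul_distrib]
    exact Finset.prod_congr rfl fun l _ => h1 l
  calc E * w * y ^ 3 * ∏ l : {l : ℕ // l ∈ M}, l.1 ^ (t l).val
      = E * (w * ∏ l : {l : ℕ // l ∈ M}, l.1 ^ (t l).val) * y ^ 3 := by ring
    _ = _ := by rw [h3]; ring

lemma tw_EF {p : ℕ} (hp : p.Prime) (hp3 : p ≠ 3) (hpM : p ∉ M) (hM : ∀ l ∈ M, l.Prime)
    {E w y : ℕ} (hw : Smo M w) (hn : ¬ p ∣ E * w * y ^ 3) (t : {l : ℕ // l ∈ M} → ZMod 3) (s : ℂ) :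
    EF ((twD (E * w * y ^ 3) M t : ℕ) : ℤ) p s = EF ((twN E M (t + wt M w) : ℕ) : ℤ) p s := by
  haveI := Fact.mk hp
  obtain ⟨β, hβ⟩ := exists_b (p := p) hp3
  obtain ⟨u, hu⟩ := tw_eq (E := E) (y := y) hw t
  have h1 : ¬ p ∣ twD (E * w * y ^ 3) M t := by
    unfold twD
    intro h
    rcases (Nat.Prime.dvd_mul hp).1 h with h | h
    · exact hn h
    · obtain ⟨l, -, hl⟩ := (hp.prime.dvd_finsetProd_iff _).1 h
      have h2 := (Nat.prime_dvd_prime_iff_eq hp (hM l.1 l.2)).1 (hp.dvd_of_dvd_pow hl)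
      exact hpM (by rw [h2]; exact l.2)
  rw [hu] at h1
  rw [hu]
  push_cast
  refine EF_cube hp3 hβ ?_ ?_ s
  · intro h
    exact h1 (Dvd.dvd.mul_right (by exact_mod_cast h) _)
  · intro h
    exact h1 (Dvd.dvd.mul_left (dvd_pow (by exact_mod_cast h) (by norm_num)) _)

lemma beta_abs {p : ℕ} [Fact p.Prime] {β : ZMod p → ℂ} (hβ : IsBeta β) (δ : ℤ) :
    β ((δ.natAbs : ℤ) : ZMod p) = β (δ : ZMod p) := by
  rcases Int.natAbs_eq δ with h | h
  · rw [← h]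
  · have h1 := hβ.1 (((δ.natAbs : ℕ) : ℤ) : ZMod p) (-1) (neg_ne_zero.2 one_ne_zero)
    rw [← h1]
    congr 1
    conv_rhs => rw [h]
    push_cast
    ring

/-- **The local factor.** -/
theorem loc_fac (C : Ctx M z r) (hM : ∀ l ∈ M, l.Prime ∧ l % 9 = 1) {b : ℕ}
    (ρ : (F ≃ₐ[ℚ] F) →* Matrix (Fin b) (Fin b) ℂ) {p : ℕ} [hpf : Fact p.Prime] (hp3 : p ≠ 3)
    (hpM : p ∉ M) {v : HeightOneSpectrum (𝓞 F)} (hv : (p : 𝓞 F) ∈ v.asIdeal)
    {σ : F ≃ₐ[ℚ] F} (hσ : ∀ x : 𝓞 F, σ • x - x ^ p ∈ v.asIdeal) {β : ZMod p → ℂ} (hβ : IsBeta β)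
    {c : ℕ} {a : Fin (2 * c + 3) → ℤ} (ha : ∀ i, ¬ (p : ℤ) ∣ a i)
    {E W Y : Finset (Fin (2 * c + 3)) → ℕ} (hW : ∀ T, Smo M (W T))
    (hE : ∀ T, (Dt a T).natAbs = E T * W T * Y T ^ 3) (k : ℕ) (s : ℂ) :
    ((tns p (eigs c a p fun δ => β ((δ : ℤ) : ZMod p)) (ev (ρ σ⁻¹)) k).map fun α =>
      (1 - α * (p : ℂ) ^ (-s))⁻¹).prod =
      ∏ T ∈ (univ : Finset (Fin (2 * c + 3))).powersetCard c,
        ∏ t : {l : ℕ // l ∈ M} → ZMod 3,
          ((EF ((twN (E T) M (t + wt M (W T)) : ℕ) : ℤ) p (s - c - k))⁻¹) ^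
            mt C (rp ρ) (toC w) t := by
  have hp := hpf.out
  have h0 : (p : ℂ) ≠ 0 := by exact_mod_cast hp.ne_zero
  have hx : (p : ℂ) ^ c * ((p : ℂ) ^ k * (p : ℂ) ^ (-s)) = (p : ℂ) ^ (-(s - c - k)) := by
    rw [show -(s - (c : ℂ) - (k : ℂ)) = (c : ℂ) + ((k : ℂ) + -s) by ring, Complex.cpow_add _ _ h0,
      Complex.cpow_add _ _ h0, Complex.cpow_natCast, Complex.cpow_natCast]
  rw [tns_prod]
  unfold eigs
  rw [Multiset.map_bind, Multiset.prod_bind]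
  refine congrArg Multiset.prod (Multiset.map_congr rfl fun T _ => ?_)
  have hD : ¬ (p : ℤ) ∣ Dt a T := by
    have hpp : Prime (p : ℤ) := Nat.prime_iff_prime_int.1 hp
    intro h
    unfold Dt at h
    rcases hpp.dvd_or_dvd h with h | h
    · obtain ⟨i, -, hi⟩ := (hpp.dvd_finsetProd_iff _).1 h
      exact ha i hi
    · obtain ⟨i, -, hi⟩ := (hpp.dvd_finsetProd_iff _).1 h
      exact ha i hi
  have hD' : ¬ (p : ℤ) ∣ (((Dt a T).natAbs : ℕ) : ℤ) := fun h => hD (Int.dvd_natAbs.1 h)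
  have hD'' : ¬ p ∣ (Dt a T).natAbs := fun h => hD' (by exact_mod_cast h)
  set bb := β ((Dt a T : ℤ) : ZMod p) with hbb
  have e1 := mat_id C hM ρ hp hp3 hpM hD'' hv hσ (s - c - k)
  have e2 : (ap (WD (((Dt a T).natAbs : ℕ) : ℤ)) p : ℂ) = bb + (starRingEnd ℂ) bb := by
    rw [ap_beta hβ hD', beta_abs hβ]
  have e3 : bb * (starRingEnd ℂ) bb = p := beta_mul hβ hD
  have e4 : (p : ℂ) ^ (1 - 2 * (s - c - k)) =
      bb * (starRingEnd ℂ) bb * ((p : ℂ) ^ (-(s - c - k))) ^ 2 := by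
    rw [cpow_two hp, e3, sq]
  rw [e2, e4, det_quad] at e1
  have e5 : ∀ t : {l : ℕ // l ∈ M} → ZMod 3, EF ((twD (Dt a T).natAbs M t : ℕ) : ℤ) p (s - c - k) =
      EF ((twN (E T) M (t + wt M (W T)) : ℕ) : ℤ) p (s - c - k) := by
    intro t
    rw [hE T]
    rw [hE T] at hD''
    exact tw_EF hp hp3 hpM (fun l hl => (hM l hl).1) (hW T) hD'' t _
  simp only [e5] at e1
  have e6 : ∏ t : {l : ℕ // l ∈ M} → ZMod 3,
      ((EF ((twN (E T) M (t + wt M (W T)) : ℕ) : ℤ) p (s - c - k))⁻¹) ^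
        mt C (rp ρ) (toC w) t = (∏ t : {l : ℕ // l ∈ M} → ZMod 3,
      (EF ((twN (E T) M (t + wt M (W T)) : ℕ) : ℤ) p (s - c - k)) ^
        mt C (rp ρ) (toC w) t)⁻¹ := by
    rw [← Finset.prod_inv_distrib]
    exact Finset.prod_congr rfl fun t _ => inv_pow _ _
  rw [e6, ← e1, ← Multiset.prod_map_inv]
  simp only [Multiset.insert_eq_cons, Multiset.map_cons, Multiset.map_singleton,
    Multiset.prod_cons, Multiset.prod_singleton]
  rw [← Multiset.prod_map_mul]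
  refine congrArg Multiset.prod (Multiset.map_congr rfl fun x _ => ?_)
  rw [← mul_inv, ← hx]
  congr 1
  ring

end loc

end Pool.Agent.V5helper41.BA
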